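import Pool.Agent.U955.TP.Core

set_option autoImplicit false

/-!
The matrices on `T_{2n+4,n}`: the adjacency matrix with loops and a matrix which commutes with it.
-/

open Finset

namespace Pool.Agent.U955.TP

theorem sum_pick (m : ℕ) (f : ℕ → ℝ) (p : ℕ → Prop) [DecidablePred p] (t : ℕ)
    (ht : ∀ j, j < m → (p j ↔ j = t)) :
    ∑ j ∈ range m, (if p j then f j else 0) = if t < m then f t else 0 := by
  rw [Finset.sum_congr rfl (fun j hj => if_congr (ht j (mem_range.1 hj)) rfl rfl),
    Finset.sum_ite_eq']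
  simp only [mem_range]

/-- the cycle part of the matrix, with loops `L` -/
def acc (m : ℕ) (L : ℕ → ℝ) (i j : ℕ) : ℝ :=
  (if j = i + 1 then 1 else 0) + (if j + 1 = i then 1 else 0) +
  (if i = 0 ∧ j + 1 = m then 1 else 0) + (if j = 0 ∧ i + 1 = m then 1 else 0) +
  (if i = j then L i else 0)

/-- the path part -/
def app (L : ℕ → ℝ) (i j : ℕ) : ℝ :=
  (if j = i + 1 then 1 else 0) + (if j + 1 = i then 1 else 0) + (if i = j then L i else 0)

theorem acc_comm (m : ℕ) (L : ℕ → ℝ) (i j : ℕ) : acc m L i j = acc m L j i := by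
  unfold acc
  have h1 : (if i = j then L i else 0) = (if j = i then L j else 0) := by
    split_ifs with h h' h'
    · rw [h]
    · exact absurd h.symm h'
    · exact absurd h'.symm h
    · rfl
  rw [h1]
  have h2 : (if j = i + 1 then (1 : ℝ) else 0) = (if i + 1 = j then 1 else 0) := by
    split_ifs <;> first | rfl | omega
  have h3 : (if j + 1 = i then (1 : ℝ) else 0) = (if i = j + 1 then 1 else 0) := by
    split_ifs <;> first | rfl | omega
  rw [h2, h3]
  ring

theorem app_comm (L : ℕ → ℝ) (i j : ℕ) : app L i j = app L j i := by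
  unfold app
  have h1 : (if i = j then L i else 0) = (if j = i then L j else 0) := by
    split_ifs with h h' h'
    · rw [h]
    · exact absurd h.symm h'
    · exact absurd h'.symm h
    · rfl
  rw [h1]
  have h2 : (if j = i + 1 then (1 : ℝ) else 0) = (if i + 1 = j then 1 else 0) := by
    split_ifs <;> first | rfl | omega
  have h3 : (if j + 1 = i then (1 : ℝ) else 0) = (if i = j + 1 then 1 else 0) := by
    split_ifs <;> first | rfl | omega
  rw [h2, h3]
  ring

theorem sum_acc (m : ℕ) (L : ℕ → ℝ) {i : ℕ} (hi : i < m) (f : ℕ → ℝ) :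
    ∑ j ∈ range m, acc m L i j * f j =
      (if i + 1 < m then f (i + 1) else 0) + (if 1 ≤ i then f (i - 1) else 0) +
      (if i = 0 then f (m - 1) else 0) + (if i + 1 = m then f 0 else 0) + L i * f i := by
  unfold acc
  simp only [add_mul, ite_mul, one_mul, zero_mul, sum_add_distrib]
  have e1 := sum_pick m f (fun j => j = i + 1) (i + 1) (fun j _ => Iff.rfl)
  have e2 : ∑ j ∈ range m, (if j + 1 = i then f j else 0) = if 1 ≤ i then f (i - 1) else 0 := by
    by_cases h : 1 ≤ i
    · rw [sum_pick m f (fun j => j + 1 = i) (i - 1) (fun j _ => by omega), if_pos (by omega),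
        if_pos h]
    · rw [sum_pick m f (fun j => j + 1 = i) m (fun j _ => by omega), if_neg (by omega), if_neg h]
  have e3 : ∑ j ∈ range m, (if i = 0 ∧ j + 1 = m then f j else 0) =
      if i = 0 then f (m - 1) else 0 := by
    by_cases h : i = 0
    · rw [sum_pick m f (fun j => i = 0 ∧ j + 1 = m) (m - 1) (fun j _ => by omega),
        if_pos (by omega), if_pos h]
    · rw [sum_pick m f (fun j => i = 0 ∧ j + 1 = m) m (fun j _ => by omega), if_neg (by omega),
        if_neg h]
  have e4 : ∑ j ∈ range m, (if j = 0 ∧ i + 1 = m then f j else 0) =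
      if i + 1 = m then f 0 else 0 := by
    by_cases h : i + 1 = m
    · rw [sum_pick m f (fun j => j = 0 ∧ i + 1 = m) 0 (fun j _ => by omega),
        if_pos (by omega), if_pos h]
    · rw [sum_pick m f (fun j => j = 0 ∧ i + 1 = m) m (fun j _ => by omega), if_neg (by omega),
        if_neg h]
  have e5 : ∑ j ∈ range m, (if i = j then L i * f j else 0) = L i * f i := by
    rw [sum_pick m (fun j => L i * f j) (fun j => i = j) i (fun j _ => eq_comm), if_pos hi]
  rw [e1, e2, e3, e4, e5]

theorem sum_app (n : ℕ) (L : ℕ → ℝ) {i : ℕ} (hi : i < n) (f : ℕ → ℝ) :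
    ∑ j ∈ range n, app L i j * f j =
      (if i + 1 < n then f (i + 1) else 0) + (if 1 ≤ i then f (i - 1) else 0) + L i * f i := by
  unfold app
  simp only [add_mul, ite_mul, one_mul, zero_mul, sum_add_distrib]
  have e1 := sum_pick n f (fun j => j = i + 1) (i + 1) (fun j _ => Iff.rfl)
  have e2 : ∑ j ∈ range n, (if j + 1 = i then f j else 0) = if 1 ≤ i then f (i - 1) else 0 := by
    by_cases h : 1 ≤ i
    · rw [sum_pick n f (fun j => j + 1 = i) (i - 1) (fun j _ => by omega), if_pos (by omega),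
        if_pos h]
    · rw [sum_pick n f (fun j => j + 1 = i) n (fun j _ => by omega), if_neg (by omega), if_neg h]
  have e5 : ∑ j ∈ range n, (if i = j then L i * f j else 0) = L i * f i := by
    rw [sum_pick n (fun j => L i * f j) (fun j => i = j) i (fun j _ => eq_comm), if_pos hi]
  rw [e1, e2, e5]

/-- the matrix of the tadpole with weights one and loops `L` (cycle) and `L'` (path) -/
def A (m n : ℕ) (L L' : ℕ → ℝ) : Matrix (Fin m ⊕ Fin n) (Fin m ⊕ Fin n) ℝ
  | .inl i, .inl j => acc m L i.1 j.1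
  | .inr i, .inr j => app L' i.1 j.1
  | .inl i, .inr j => if i.1 = 0 ∧ j.1 = 0 then 1 else 0
  | .inr i, .inl j => if j.1 = 0 ∧ i.1 = 0 then 1 else 0

theorem A_symm (m n : ℕ) (L L' : ℕ → ℝ) (x y : Fin m ⊕ Fin n) : A m n L L' x y = A m n L L' y x := by
  rcases x with i | i <;> rcases y with j | j
  · exact acc_comm m L _ _
  · rfl
  · rfl
  · exact app_comm L' _ _

/-- the action on functions given by functions on the natural numbers: a vertex of the cycle -/
theorem op_inl (m n : ℕ) (L L' : ℕ → ℝ) (hn : 1 ≤ n) (i : Fin m) (f g : ℕ → ℝ) :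
    (∑ z, A m n L L' (.inl i) z * (Sum.elim (fun j : Fin m => f j.1) (fun j : Fin n => g j.1) z)) =
      (if i.1 + 1 < m then f (i.1 + 1) else 0) + (if 1 ≤ i.1 then f (i.1 - 1) else 0) +
      (if i.1 = 0 then f (m - 1) else 0) + (if i.1 + 1 = m then f 0 else 0) + L i.1 * f i.1 +
      (if i.1 = 0 then g 0 else 0) := by
  rw [Fintype.sum_sum_type]
  simp only [Sum.elim_inl, Sum.elim_inr, A]
  rw [Fin.sum_univ_eq_sum_range (fun j => acc m L i.1 j * f j) m, sum_acc m L i.2,
    Fin.sum_univ_eq_sum_range (fun j => (if i.1 = 0 ∧ j = 0 then (1 : ℝ) else 0) * g j) n]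
  congr 1
  simp only [ite_mul, one_mul, zero_mul]
  by_cases h : i.1 = 0
  · rw [sum_pick n g (fun j => i.1 = 0 ∧ j = 0) 0 (fun j _ => by omega), if_pos (by omega),
      if_pos h]
  · rw [sum_pick n g (fun j => i.1 = 0 ∧ j = 0) n (fun j _ => by omega), if_neg (by omega),
      if_neg h]

/-- a vertex of the path -/
theorem op_inr (m n : ℕ) (L L' : ℕ → ℝ) (hm : 1 ≤ m) (i : Fin n) (f g : ℕ → ℝ) :
    (∑ z, A m n L L' (.inr i) z * (Sum.elim (fun j : Fin m => f j.1) (fun j : Fin n => g j.1) z)) =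
      (if i.1 + 1 < n then g (i.1 + 1) else 0) + (if 1 ≤ i.1 then g (i.1 - 1) else 0) +
      L' i.1 * g i.1 + (if i.1 = 0 then f 0 else 0) := by
  rw [Fintype.sum_sum_type]
  simp only [Sum.elim_inl, Sum.elim_inr, A]
  rw [Fin.sum_univ_eq_sum_range (fun j => app L' i.1 j * g j) n, sum_app n L' i.2,
    Fin.sum_univ_eq_sum_range (fun j => (if j = 0 ∧ i.1 = 0 then (1 : ℝ) else 0) * f j) m,
    add_comm]
  congr 1
  simp only [ite_mul, one_mul, zero_mul]
  by_cases h : i.1 = 0
  · rw [sum_pick m f (fun j => j = 0 ∧ i.1 = 0) 0 (fun j _ => by omega), if_pos (by omega),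
      if_pos h]
  · rw [sum_pick m f (fun j => j = 0 ∧ i.1 = 0) m (fun j _ => by omega), if_neg (by omega),
      if_neg h]

/-! ### the even family -/

/-- distance from `c_0` on the cycle of length `2 n + 4` -/
def re (n i : ℕ) : ℤ := if i ≤ n + 2 then (i : ℤ) else 2 * n + 4 - i

/-- loops on the cycle -/
def Le (n i : ℕ) : ℝ :=
  if i = 0 ∨ i = 1 ∨ i = 2 * n + 3 then 1 else if i = n + 2 then 2 else 0

/-- loops on the path -/
def Lt (n i : ℕ) : ℝ := if i + 1 = n then 1 else 0

theorem re_low {n i : ℕ} (h : i ≤ n + 2) : re n i = i := if_pos h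

theorem re_high {n i : ℕ} (h : n + 2 ≤ i) : re n i = 2 * n + 4 - i := by
  unfold re
  split_ifs
  · omega
  · rfl

theorem Je_K (n : ℕ) (F : ℤ → ℝ) : Je n F (n + 2) = 2 * F (n + 1) + 2 * F (n + 2) := if_pos rfl

theorem Je_0 (n : ℕ) (F : ℤ → ℝ) : Je n F 0 = 2 * F 1 + F (-1) + F 0 := by
  unfold Je
  rw [if_neg (by omega), if_pos rfl]

theorem Je_1 (n : ℕ) (F : ℤ → ℝ) : Je n F 1 = F 2 + F 0 + F 1 := by
  unfold Je
  rw [if_neg (by omega), if_neg (by omega), if_pos rfl]

theorem Je_leaf (n : ℕ) (hn : 1 ≤ n) (F : ℤ → ℝ) : Je n F (-n) = F (-n + 1) + F (-n) := by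
  unfold Je
  rw [if_neg (by omega), if_neg (by omega), if_neg (by omega), if_pos rfl]

theorem Je_gen (n : ℕ) (F : ℤ → ℝ) {a : ℤ} (h1 : a ≠ n + 2) (h2 : a ≠ 0) (h3 : a ≠ 1)
    (h4 : a ≠ -n) : Je n F a = F (a + 1) + F (a - 1) := by
  unfold Je
  rw [if_neg h1, if_neg h2, if_neg h3, if_neg h4]

theorem fold_inl (n : ℕ) (hn : 1 ≤ n) (i : Fin (2 * n + 4)) (F : ℤ → ℝ) :
    (∑ z, A (2 * n + 4) n (Le n) (Lt n) (.inl i) z *
      (Sum.elim (fun j : Fin (2 * n + 4) => F (re n j.1)) (fun j : Fin n => F (-(j.1 : ℤ) - 1)) z)) =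
      Je n F (re n i.1) := by
  rw [op_inl (2 * n + 4) n (Le n) (Lt n) hn i (fun j => F (re n j)) (fun j => F (-(j : ℤ) - 1))]
  have hi := i.2
  generalize i.1 = k at hi ⊢
  by_cases h0 : k = 0
  · subst h0
    rw [if_pos (by omega), if_neg (by omega), if_pos rfl, if_neg (by omega), if_pos rfl,
      re_low (by omega : 0 + 1 ≤ n + 2), re_high (by omega : n + 2 ≤ 2 * n + 4 - 1),
      re_low (by omega : 0 ≤ n + 2)]
    unfold Le
    rw [if_pos (by omega), show (2 * (n : ℤ) + 4 - ((2 * n + 4 - 1 : ℕ) : ℤ)) = 1 by omega,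
      show ((0 + 1 : ℕ) : ℤ) = 1 by norm_num, show ((0 : ℕ) : ℤ) = 0 by norm_num, Je_0,
      show (-0 - 1 : ℤ) = -1 by norm_num]
    ring
  rw [if_neg h0, if_neg h0, if_pos (by omega : 1 ≤ k)]
  by_cases h1 : k = 1
  · subst h1
    rw [if_pos (by omega), if_neg (by omega), re_low (by omega : 1 + 1 ≤ n + 2),
      re_low (by omega : 1 - 1 ≤ n + 2), re_low (by omega : 1 ≤ n + 2)]
    unfold Le
    rw [if_pos (by omega), show ((1 + 1 : ℕ) : ℤ) = 2 by norm_num,
      show ((1 - 1 : ℕ) : ℤ) = 0 by norm_num, show ((1 : ℕ) : ℤ) = 1 by norm_num, Je_1]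
    ring
  by_cases h2 : k = 2 * n + 3
  · subst h2
    rw [if_neg (by omega), if_pos (by omega), re_high (by omega : n + 2 ≤ 2 * n + 3 - 1),
      re_high (by omega : n + 2 ≤ 2 * n + 3), re_low (by omega : 0 ≤ n + 2)]
    unfold Le
    rw [if_pos (by omega), show (2 * (n : ℤ) + 4 - ((2 * n + 3 - 1 : ℕ) : ℤ)) = 2 by omega,
      show (2 * (n : ℤ) + 4 - ((2 * n + 3 : ℕ) : ℤ)) = 1 by omega,
      show ((0 : ℕ) : ℤ) = 0 by norm_num, Je_1]
    ring
  rw [if_pos (by omega), if_neg (by omega)]
  rcases lt_trichotomy k (n + 2) with h | h | h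
  · rw [re_low (by omega : k + 1 ≤ n + 2), re_low (by omega : k - 1 ≤ n + 2),
      re_low (by omega : k ≤ n + 2)]
    unfold Le
    rw [if_neg (by omega), if_neg (by omega), Je_gen n F (by omega) (by omega) (by omega)
      (by omega), show ((k + 1 : ℕ) : ℤ) = k + 1 by omega, show ((k - 1 : ℕ) : ℤ) = k - 1 by omega]
    ring
  · subst h
    rw [re_high (by omega : n + 2 ≤ n + 2 + 1), re_low (by omega : n + 2 - 1 ≤ n + 2),
      re_low (by omega : n + 2 ≤ n + 2)]
    unfold Le
    rw [if_neg (by omega), if_pos rfl, show ((n + 2 : ℕ) : ℤ) = n + 2 by omega, Je_K,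
      show (2 * (n : ℤ) + 4 - ((n + 2 + 1 : ℕ) : ℤ)) = n + 1 by omega,
      show ((n + 2 - 1 : ℕ) : ℤ) = n + 1 by omega]
    ring
  · rw [re_high (by omega : n + 2 ≤ k + 1), re_high (by omega : n + 2 ≤ k - 1),
      re_high (by omega : n + 2 ≤ k)]
    unfold Le
    rw [if_neg (by omega), if_neg (by omega), Je_gen n F (by omega) (by omega) (by omega)
      (by omega), show (2 * (n : ℤ) + 4 - ((k + 1 : ℕ) : ℤ)) = 2 * n + 4 - k - 1 by omega,
      show (2 * (n : ℤ) + 4 - ((k - 1 : ℕ) : ℤ)) = 2 * n + 4 - k + 1 by omega]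
    ring

theorem fold_inr (n : ℕ) (hn : 1 ≤ n) (i : Fin n) (F : ℤ → ℝ) :
    (∑ z, A (2 * n + 4) n (Le n) (Lt n) (.inr i) z *
      (Sum.elim (fun j : Fin (2 * n + 4) => F (re n j.1)) (fun j : Fin n => F (-(j.1 : ℤ) - 1)) z)) =
      Je n F (-(i.1 : ℤ) - 1) := by
  rw [op_inr (2 * n + 4) n (Le n) (Lt n) (by omega) i (fun j => F (re n j))
    (fun j => F (-(j : ℤ) - 1))]
  have hi := i.2
  generalize i.1 = k at hi ⊢
  have e0 : (if 1 ≤ k then F (-((k - 1 : ℕ) : ℤ) - 1) else 0) + (if k = 0 then F (re n 0) else 0) =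
      F (-(k : ℤ)) := by
    by_cases h : k = 0
    · subst h
      rw [if_neg (by omega), if_pos rfl, re_low (by omega)]
      simp
    · rw [if_pos (by omega), if_neg h, show -((k - 1 : ℕ) : ℤ) - 1 = -(k : ℤ) by omega, add_zero]
  have e1 : (if k + 1 < n then F (-((k + 1 : ℕ) : ℤ) - 1) else 0) + Lt n k * F (-(k : ℤ) - 1) +
      F (-(k : ℤ)) = Je n F (-(k : ℤ) - 1) := by
    unfold Lt
    by_cases h : k + 1 = n
    · rw [if_neg (by omega), if_pos h, show (-(k : ℤ) - 1) = -(n : ℤ) by omega, Je_leaf n hn,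
        show (-(n : ℤ) + 1) = -(k : ℤ) by omega]
      ring
    · rw [if_pos (by omega), if_neg h, Je_gen n F (by omega) (by omega) (by omega) (by omega),
        show -((k + 1 : ℕ) : ℤ) - 1 = -(k : ℤ) - 1 - 1 by omega,
        show -(k : ℤ) - 1 + 1 = -(k : ℤ) by omega]
      ring
  linarith

/-- the reflection of the cycle, away from the two fixed vertices -/
def ρe (n i j : ℕ) : ℝ := if i + j = 2 * n + 4 ∧ i ≠ j then 1 else 0

theorem ρe_comm (n i j : ℕ) : ρe n i j = ρe n j i := by
  unfold ρe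
  split_ifs <;> first | rfl | omega

/-- the matrix which commutes -/
def Xe (n : ℕ) : Matrix (Fin (2 * n + 4) ⊕ Fin n) (Fin (2 * n + 4) ⊕ Fin n) ℝ
  | .inl i, .inl j => Y 1 (re n i.1) (re n j.1) + ρe n i.1 j.1
  | .inl i, .inr j => Y 1 (re n i.1) (-(j.1 : ℤ) - 1)
  | .inr i, .inl j => Y 1 (-(i.1 : ℤ) - 1) (re n j.1)
  | .inr i, .inr j => Y 1 (-(i.1 : ℤ) - 1) (-(j.1 : ℤ) - 1)

theorem Xe_symm (n : ℕ) (x y : Fin (2 * n + 4) ⊕ Fin n) : Xe n x y = Xe n y x := by
  rcases x with i | i <;> rcases y with j | j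
  · simp only [Xe]
    rw [Y_comm, ρe_comm]
  · simp only [Xe]
    rw [Y_comm]
  · simp only [Xe]
    rw [Y_comm]
  · simp only [Xe]
    rw [Y_comm]

/-- position of a vertex -/
def φe (n : ℕ) : Fin (2 * n + 4) ⊕ Fin n → ℤ
  | .inl i => re n i.1
  | .inr i => -(i.1 : ℤ) - 1

theorem re_nonneg (n : ℕ) (i : Fin (2 * n + 4)) : 0 ≤ re n i.1 ∧ re n i.1 ≤ n + 2 := by
  have := i.2
  unfold re
  split_ifs <;> omega

theorem φe_mem (n : ℕ) (x : Fin (2 * n + 4) ⊕ Fin n) : -(n : ℤ) ≤ φe n x ∧ φe n x ≤ n + 2 := by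
  rcases x with i | i
  · have := re_nonneg n i
    simp only [φe]
    omega
  · have := i.2
    simp only [φe]
    omega

theorem fold (n : ℕ) (hn : 1 ≤ n) (x : Fin (2 * n + 4) ⊕ Fin n) (F : ℤ → ℝ) :
    (∑ z, A (2 * n + 4) n (Le n) (Lt n) x z * F (φe n z)) = Je n F (φe n x) := by
  have e : ∀ z, F (φe n z) = Sum.elim (fun j : Fin (2 * n + 4) => F (re n j.1))
      (fun j : Fin n => F (-(j.1 : ℤ) - 1)) z := by
    rintro (j | j) <;> rfl
  simp only [e]
  rcases x with i | i
  · exact fold_inl n hn i F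
  · exact fold_inr n hn i F

/-- the reflection part as a matrix -/
def Re (n : ℕ) : Fin (2 * n + 4) ⊕ Fin n → Fin (2 * n + 4) ⊕ Fin n → ℝ
  | .inl i, .inl j => ρe n i.1 j.1
  | _, _ => 0

theorem Xe_eq (n : ℕ) (x y : Fin (2 * n + 4) ⊕ Fin n) :
    Xe n x y = Y 1 (φe n x) (φe n y) + Re n x y := by
  rcases x with i | i <;> rcases y with j | j <;> simp [Xe, Re, φe]

theorem sum_Re (n : ℕ) (x : Fin (2 * n + 4) ⊕ Fin n) (j : Fin (2 * n + 4)) :
    (∑ z, A (2 * n + 4) n (Le n) (Lt n) x z * Re n z (.inl j)) =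
      if h : j.1 = 0 ∨ j.1 = n + 2 then 0 else
        A (2 * n + 4) n (Le n) (Lt n) x (.inl ⟨2 * n + 4 - j.1, by have := j.2; omega⟩) := by
  have hj := j.2
  split_ifs with h
  · refine Finset.sum_eq_zero fun z _ => ?_
    rcases z with i | i
    · have := i.2
      simp only [Re, ρe]
      rw [if_neg (by omega), mul_zero]
    · simp [Re]
  · rw [Finset.sum_eq_single (Sum.inl ⟨2 * n + 4 - j.1, by omega⟩)]
    · simp only [Re, ρe]
      rw [if_pos (by omega), mul_one]
    · rintro (i | i) _ hne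
      · have := i.2
        simp only [Re, ρe]
        rw [if_neg, mul_zero]
        rintro ⟨h1, h2⟩
        apply hne
        congr 1
        apply Fin.ext
        simp only
        omega
      · simp [Re]
    · intro h'
      exact absurd (Finset.mem_univ _) h'

theorem sum_Re_inr (n : ℕ) (x : Fin (2 * n + 4) ⊕ Fin n) (j : Fin n) :
    (∑ z, A (2 * n + 4) n (Le n) (Lt n) x z * Re n z (.inr j)) = 0 := by
  refine Finset.sum_eq_zero fun z _ => ?_
  rcases z with i | i <;> simp [Re]

theorem Le_refl {n k l : ℕ} (h : k + l = 2 * n + 4) (h0 : k ≠ 0) (h1 : l ≠ 0) :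
    Le n k = Le n l := by
  unfold Le
  split_ifs <;> first | rfl | omega

theorem defect_aux1 (n : ℕ) {k l : ℕ} (hk : k < 2 * n + 4) (hl : l < 2 * n + 4)
    (h1 : l = 0 ∨ l = n + 2) (h2 : ¬ (k = 0 ∨ k = n + 2)) :
    acc (2 * n + 4) (Le n) l (2 * n + 4 - k) = κ n (re n k) (re n l) := by
  rcases h1 with rfl | rfl
  · rw [re_low (by omega : 0 ≤ n + 2)]
    by_cases c1 : k = 1
    · subst c1
      rw [re_low (by omega)]
      unfold acc κ
      rw [if_neg (by omega), if_neg (by omega), if_pos (by omega), if_neg (by omega),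
        if_neg (by omega), if_neg (by omega), if_pos (by norm_num), if_neg (by omega),
        if_neg (by omega)]
      norm_num
    by_cases c2 : k = 2 * n + 3
    · subst c2
      rw [re_high (by omega)]
      unfold acc κ
      rw [if_pos (by omega), if_neg (by omega), if_neg (by omega), if_neg (by omega),
        if_neg (by omega), if_neg (by omega), if_pos (by constructor <;> omega),
        if_neg (by omega), if_neg (by omega)]
      norm_num
    have hr : re n k ≠ 1 := by
      unfold re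
      split_ifs <;> omega
    unfold acc κ
    rw [if_neg (by omega), if_neg (by omega), if_neg (by omega), if_neg (by omega),
      if_neg (by omega), if_neg (by omega), if_neg (fun h => hr h.1), if_neg (by omega),
      if_neg (by omega)]
    norm_num
  · rw [re_low (by omega : n + 2 ≤ n + 2)]
    by_cases c1 : k = n + 1
    · subst c1
      rw [re_low (by omega)]
      unfold acc κ
      rw [if_pos (by omega), if_neg (by omega), if_neg (by omega), if_neg (by omega),
        if_neg (by omega), if_neg (by omega), if_neg (by omega), if_neg (by omega),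
        if_pos (by constructor <;> push_cast <;> ring)]
      norm_num
    by_cases c2 : k = n + 3
    · subst c2
      rw [re_high (by omega)]
      unfold acc κ
      rw [if_neg (by omega), if_pos (by omega), if_neg (by omega), if_neg (by omega),
        if_neg (by omega), if_neg (by omega), if_neg (by omega), if_neg (by omega),
        if_pos (by constructor <;> push_cast <;> ring)]
      norm_num
    have hr : re n k ≠ n + 1 := by
      unfold re
      split_ifs <;> omega
    unfold acc κ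
    rw [if_neg (by omega), if_neg (by omega), if_neg (by omega), if_neg (by omega),
      if_neg (by omega), if_neg (by omega), if_neg (by omega), if_neg (by omega),
      if_neg (fun h => hr h.1)]
    norm_num

theorem defect (n : ℕ) (hn : 1 ≤ n) (x y : Fin (2 * n + 4) ⊕ Fin n) :
    (∑ z, A (2 * n + 4) n (Le n) (Lt n) x z * Re n z y) -
      (∑ z, A (2 * n + 4) n (Le n) (Lt n) y z * Re n z x) = - κ n (φe n x) (φe n y) := by
  rcases x with i | i <;> rcases y with j | j
  · rw [sum_Re, sum_Re]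
    have hi := i.2
    have hj := j.2
    simp only [φe, A]
    generalize hk : i.1 = k at hi ⊢
    generalize hl : j.1 = l at hj ⊢
    by_cases h1 : l = 0 ∨ l = n + 2
    · rw [dif_pos h1]
      by_cases h2 : k = 0 ∨ k = n + 2
      · rw [dif_pos h2]
        have a1 := re_low (n := n) (i := 0) (by omega)
        have a2 := re_low (n := n) (i := n + 2) (by omega)
        rcases h1 with rfl | rfl <;> rcases h2 with rfl | rfl <;> simp only [a1, a2] <;> unfold κ <;>
          rw [if_neg (by omega), if_neg (by omega), if_neg (by omega), if_neg (by omega)] <;>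
          norm_num
      · rw [dif_neg h2, defect_aux1 n hi hj h1 h2]
        ring
    · rw [dif_neg h1]
      by_cases h2 : k = 0 ∨ k = n + 2
      · rw [dif_pos h2, defect_aux1 n hj hi h2 h1, κ_swap n (re n k)]
        ring
      · rw [dif_neg h2]
        have e1 : κ n (re n k) (re n l) = 0 := by
          have c1 : re n k ≠ 0 ∧ re n k ≠ n + 2 := by
            unfold re
            split_ifs <;> omega
          have c2 : re n l ≠ 0 ∧ re n l ≠ n + 2 := by
            unfold re
            split_ifs <;> omega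
          unfold κ
          rw [if_neg (by omega), if_neg (by omega), if_neg (by omega), if_neg (by omega)]
          norm_num
        rw [e1, neg_zero, sub_eq_zero]
        unfold acc
        have b1 : (if 2 * n + 4 - l = k + 1 then (1 : ℝ) else 0) =
            (if 2 * n + 4 - k = l + 1 then 1 else 0) := by
          split_ifs <;> first | rfl | omega
        have b2 : (if 2 * n + 4 - l + 1 = k then (1 : ℝ) else 0) =
            (if 2 * n + 4 - k + 1 = l then 1 else 0) := by
          split_ifs <;> first | rfl | omega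
        have b3 : (if k = 2 * n + 4 - l then Le n k else 0) =
            (if l = 2 * n + 4 - k then Le n l else 0) := by
          split_ifs with u v v
          · exact Le_refl (by omega) (by omega) (by omega)
          · omega
          · omega
          · rfl
        rw [b1, b2, b3, if_neg (by omega : ¬ (k = 0 ∧ 2 * n + 4 - l + 1 = 2 * n + 4)),
          if_neg (by omega : ¬ (2 * n + 4 - l = 0 ∧ k + 1 = 2 * n + 4)),
          if_neg (by omega : ¬ (l = 0 ∧ 2 * n + 4 - k + 1 = 2 * n + 4)),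
          if_neg (by omega : ¬ (2 * n + 4 - k = 0 ∧ l + 1 = 2 * n + 4))]
  · rw [sum_Re_inr, sum_Re]
    have hi := i.2
    have hj := j.2
    have hr := re_nonneg n i
    have e0 : κ n (φe n (.inl i)) (φe n (.inr j)) = 0 := by
      simp only [φe]
      unfold κ
      rw [if_neg (by omega), if_neg (by omega), if_neg (by omega), if_neg (by omega)]
      norm_num
    rw [e0]
    split_ifs with h
    · norm_num
    · simp only [A]
      rw [if_neg (by omega)]
      norm_num
  · rw [sum_Re_inr, sum_Re]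
    have hi := i.2
    have hj := j.2
    have hr := re_nonneg n j
    have e0 : κ n (φe n (.inr i)) (φe n (.inl j)) = 0 := by
      simp only [φe]
      unfold κ
      rw [if_neg (by omega), if_neg (by omega), if_neg (by omega), if_neg (by omega)]
      norm_num
    rw [e0]
    split_ifs with h
    · norm_num
    · simp only [A]
      rw [if_neg (by omega)]
      norm_num
  · rw [sum_Re_inr, sum_Re_inr]
    have hi := i.2
    have hj := j.2
    simp only [φe]
    unfold κ
    rw [if_neg (by omega), if_neg (by omega), if_neg (by omega), if_neg (by omega)]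
    norm_num

theorem commute_e (n : ℕ) (hn : 1 ≤ n) :
    A (2 * n + 4) n (Le n) (Lt n) * Xe n = Xe n * A (2 * n + 4) n (Le n) (Lt n) := by
  ext x y
  rw [Matrix.mul_apply, Matrix.mul_apply]
  have e1 : (∑ z, A (2 * n + 4) n (Le n) (Lt n) x z * Xe n z y) =
      Je n (fun t => Y 1 t (φe n y)) (φe n x) +
        ∑ z, A (2 * n + 4) n (Le n) (Lt n) x z * Re n z y := by
    rw [← fold n hn x (fun t => Y 1 t (φe n y)), ← Finset.sum_add_distrib]
    refine Finset.sum_congr rfl fun z _ => ?_
    rw [Xe_eq]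
    ring
  have e2 : (∑ z, Xe n x z * A (2 * n + 4) n (Le n) (Lt n) z y) =
      Je n (fun t => Y 1 t (φe n x)) (φe n y) +
        ∑ z, A (2 * n + 4) n (Le n) (Lt n) y z * Re n z x := by
    rw [← fold n hn y (fun t => Y 1 t (φe n x)), ← Finset.sum_add_distrib]
    refine Finset.sum_congr rfl fun z _ => ?_
    rw [Xe_symm n x z, Xe_eq, A_symm _ _ _ _ z y]
    ring
  have h1 := pos_e n hn (φe_mem n x).1 (φe_mem n x).2 (φe_mem n y).1 (φe_mem n y).2
  have h2 := defect n hn x y
  rw [e1, e2]
  linarith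

/-- `Y` vanishes at equal and at consecutive positions -/
theorem Y_small (c : ℝ) {a b : ℤ} (h1 : a ≤ b + 1) (h2 : b ≤ a + 1) : Y c a b = 0 := by
  unfold Y
  split_ifs with h
  · exact G_zero c (by omega)
  · rw [H_zero c (by omega), H_zero c (by omega), add_zero]

theorem acc_ne (m : ℕ) (hm : 3 ≤ m) (L : ℕ → ℝ) {i j : ℕ} (hi : i < m) (hj : j < m) (h : i ≠ j) :
    acc m L i j ≠ 0 ↔ (i + 1 = j ∨ j + 1 = i ∨ (i = 0 ∧ j + 1 = m) ∨ (j = 0 ∧ i + 1 = m)) := by
  unfold acc
  rw [if_neg h]
  by_cases h1 : j = i + 1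
  · rw [if_pos h1, if_neg (by omega), if_neg (by omega), if_neg (by omega)]
    simp [h1]
  by_cases h2 : j + 1 = i
  · rw [if_neg h1, if_pos h2, if_neg (by omega), if_neg (by omega)]
    simp [h2]
  by_cases h3 : i = 0 ∧ j + 1 = m
  · rw [if_neg h1, if_neg h2, if_pos h3, if_neg (by omega)]
    simp [h3]
  by_cases h4 : j = 0 ∧ i + 1 = m
  · rw [if_neg h1, if_neg h2, if_neg h3, if_pos h4]
    simp [h4]
  · rw [if_neg h1, if_neg h2, if_neg h3, if_neg h4]
    simp only [add_zero, ne_eq, not_true_eq_false, false_iff]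
    omega

theorem app_ne (L : ℕ → ℝ) {i j : ℕ} (h : i ≠ j) :
    app L i j ≠ 0 ↔ (i + 1 = j ∨ j + 1 = i) := by
  unfold app
  rw [if_neg h]
  by_cases h1 : j = i + 1
  · rw [if_pos h1, if_neg (by omega)]
    simp [h1]
  by_cases h2 : j + 1 = i
  · rw [if_neg h1, if_pos h2]
    simp [h2]
  · rw [if_neg h1, if_neg h2]
    simp only [add_zero, ne_eq, not_true_eq_false, false_iff]
    omega

theorem Xe_cc (n : ℕ) (i j : Fin (2 * n + 4))
    (h : i = j ∨ i.1 + 1 = j.1 ∨ j.1 + 1 = i.1 ∨ (i.1 = 0 ∧ j.1 + 1 = 2 * n + 4) ∨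
      (j.1 = 0 ∧ i.1 + 1 = 2 * n + 4)) : Xe n (.inl i) (.inl j) = 0 := by
  have hi := i.2
  have hj := j.2
  rw [Fin.ext_iff] at h
  simp only [Xe]
  rw [Y_small 1, ρe, if_neg (by omega), add_zero]
  · unfold re
    split_ifs <;> omega
  · unfold re
    split_ifs <;> omega

end Pool.Agent.U955.TP
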