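import Pool.Agent.Results.MP_34deb4_co.LongTails
import Pool.Agent.U955.TP.Even

/-!
The matrices on `T_{2n+4,n}`: no strong spectral property.
-/

set_option autoImplicit false

open Finset

namespace Pool.Agent.U955.TP.Sharp

open Pool.Agent.Results.MP_34deb4_co.LongTails Pool.Agent.U955.TP

theorem inS_A (m n : ℕ) (hm : 3 ≤ m) (L L' : ℕ → ℝ) : InS (tadpole m n) (A m n L L') := by
  refine ⟨Matrix.IsSymm.ext fun x y => A_symm m n L L' y x, ?_⟩
  rintro (i | i) (j | j) hne
  · rw [adj_cc hm]
    exact acc_ne m hm L i.2 j.2 (fun h => hne (by rw [Fin.ext h]))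
  · rw [SimpleGraph.adj_comm, adj_pc]
    simp only [A]
    split_ifs with h
    · simp [h]
    · simp only [ne_eq, not_true_eq_false, false_iff]
      omega
  · rw [adj_pc]
    simp only [A]
    split_ifs with h
    · simp [h]
    · simp only [ne_eq, not_true_eq_false, false_iff]
      omega
  · rw [adj_pp]
    exact app_ne L' (fun h => hne (by rw [Fin.ext h]))

/-- a matrix `X` which vanishes on the diagonal and on the edges and commutes -/
theorem not_ssp {V : Type} [Fintype V] (G : SimpleGraph V) (B X : Matrix V V ℝ) (hB : InS G B)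
    (hX : X.IsSymm) (h0 : ∀ x, X x x = 0) (h1 : ∀ x y, G.Adj x y → X x y = 0)
    (hc : B * X = X * B) (x y : V) (hne : X x y ≠ 0) : ¬ HasSSP B := by
  intro h
  have := h X hX (fun i j => by
    by_cases hij : i = j
    · rw [hij, h0, mul_zero]
    · by_cases ha : G.Adj i j
      · rw [h1 i j ha, mul_zero]
      · have : B i j = 0 := by
          by_contra hne'
          exact ha ((hB.2 i j hij).1 hne')
        rw [this, zero_mul]) h0 hc
  exact hne (by rw [this]; rfl)

theorem even_case (n : ℕ) (hn : 1 ≤ n) : ¬ HasSSP (A (2 * n + 4) n (Le n) (Lt n)) := by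
  have hY := fun (s : ℤ) (h : s ≤ 1) => G_zero 1 h
  have pos : ∀ i : Fin n, ∀ j : Fin n, Xe n (.inr i) (.inr j) = 0 := by
    intro i j
    simp only [Xe]
    rw [Y_le 1 (by omega), hY _ (by omega)]
  have cp : ∀ (i : Fin (2 * n + 4)) (j : Fin n), i.1 = 0 → j.1 = 0 →
      Xe n (.inl i) (.inr j) = 0 := by
    intro i j hi hj
    simp only [Xe]
    rw [Y_ge 1 (by omega), hi, re_low (by omega), hY _ (by omega)]
  refine not_ssp (tadpole (2 * n + 4) n) _ (Xe n) (inS_A _ _ (by omega) _ _)
    (Matrix.IsSymm.ext fun x y => Xe_symm n y x) ?_ ?_ (commute_e n hn)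
    (.inl ⟨n + 2, by omega⟩) (.inr ⟨n - 1, by omega⟩) ?_
  · rintro (i | i)
    · exact Xe_cc n i i (Or.inl rfl)
    · exact pos i i
  · rintro (i | i) (j | j) h
    · rw [adj_cc (by omega)] at h
      exact Xe_cc n i j (Or.inr h)
    · rw [SimpleGraph.adj_comm, adj_pc] at h
      exact cp i j h.2 h.1
    · rw [adj_pc] at h
      rw [Xe_symm]
      exact cp j i h.2 h.1
    · exact pos i j
  · simp only [Xe]
    rw [Y_ge 1 (by omega), re_low (by omega)]
    rw [show (((n + 2 : ℕ) : ℤ) + (-((n - 1 : ℕ) : ℤ) - 1)) = 2 by omega]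
    unfold G
    rw [H_two, H_zero 1 (by norm_num)]
    norm_num

end Pool.Agent.U955.TP.Sharp
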