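import Mathlib

set_option autoImplicit false

/-!
The two explicit pairs of matrices on the tadpoles `T_{2n+4,n}` and `T_{2n+5,n}`: sequences and the
identity on the folded path.
-/

namespace Pool.Agent.U955.TP

/-- `0, 1, 2, …` with `P (k+2) = 2 P (k+1) + c P k` -/
def P (c : ℝ) : ℕ → ℝ
  | 0 => 0
  | 1 => 1
  | (k + 2) => 2 * P c (k + 1) + c * P c k

/-- the shifted sequence on the integers, zero up to `1` -/
def H (c : ℝ) (d : ℤ) : ℝ := P c (d - 1).toNat

theorem H_zero (c : ℝ) {d : ℤ} (h : d ≤ 1) : H c d = 0 := by
  unfold H
  rw [Int.toNat_of_nonpos (by omega)]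
  rfl

theorem H_two (c : ℝ) : H c 2 = 1 := rfl

theorem H_rec (c : ℝ) {d : ℤ} (h : 2 ≤ d) : H c (d + 1) = 2 * H c d + c * H c (d - 1) := by
  obtain ⟨e, rfl⟩ : ∃ e : ℕ, d = e + 2 := ⟨(d - 2).toNat, by omega⟩
  unfold H
  rw [show ((e : ℤ) + 2 + 1 - 1).toNat = e + 2 by omega,
    show ((e : ℤ) + 2 - 1).toNat = e + 1 by omega,
    show ((e : ℤ) + 2 - 1 - 1).toNat = e by omega]
  rfl

/-- the values on the path part -/
def G (c : ℝ) (s : ℤ) : ℝ := H c s - H c (s - 1)

theorem G_zero (c : ℝ) {s : ℤ} (h : s ≤ 1) : G c s = 0 := by
  unfold G
  rw [H_zero c h, H_zero c (by omega), sub_zero]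

/-- the folded matrix -/
def Y (c : ℝ) (a b : ℤ) : ℝ :=
  if a ≤ 0 ∨ b ≤ 0 then G c (a + b) else H c (a - b) + H c (b - a)

theorem Y_comm (c : ℝ) (a b : ℤ) : Y c a b = Y c b a := by
  unfold Y
  by_cases h : a ≤ 0 ∨ b ≤ 0
  · rw [if_pos h, if_pos h.symm, add_comm]
  · rw [if_neg h, if_neg (fun h' => h h'.symm), add_comm]

theorem Y_le (c : ℝ) {a b : ℤ} (h : a ≤ 0) : Y c a b = G c (a + b) := if_pos (Or.inl h)

theorem Y_ge (c : ℝ) {a b : ℤ} (h : b ≤ 0) : Y c a b = G c (a + b) := if_pos (Or.inr h)

/-- for `1 ≤ a ≤ b` -/
theorem Y_pos (c : ℝ) {a b : ℤ} (h : 1 ≤ a) (h' : a ≤ b) : Y c a b = H c (b - a) := by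
  unfold Y
  rw [if_neg (by omega), H_zero c (by omega : a - b ≤ 1), zero_add]

theorem Y_pos' (c : ℝ) {a b : ℤ} (h : 1 ≤ b) (h' : b ≤ a) : Y c a b = H c (a - b) := by
  rw [Y_comm, Y_pos c h h']

/-- the folded operator of `T_{2n+4,n}` -/
def Je (n : ℕ) (F : ℤ → ℝ) (a : ℤ) : ℝ :=
  if a = n + 2 then 2 * F (n + 1) + 2 * F (n + 2)
  else if a = 0 then 2 * F 1 + F (-1) + F 0
  else if a = 1 then F 2 + F 0 + F 1
  else if a = -n then F (-n + 1) + F (-n)
  else F (a + 1) + F (a - 1)

/-- the defect of the folded matrix -/
def κ (n : ℕ) (a b : ℤ) : ℝ :=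
  (if a = 0 ∧ b = 1 then -1 else 0) + (if a = 1 ∧ b = 0 then 1 else 0) +
  (if a = n + 2 ∧ b = n + 1 then -1 else 0) + (if a = n + 1 ∧ b = n + 2 then 1 else 0)

theorem κ_swap (n : ℕ) (a b : ℤ) : κ n a b = - κ n b a := by
  unfold κ
  split_ifs <;> first | omega | norm_num

/-- the identity on the folded path, `a ≤ b` -/
theorem pos_e_le (n : ℕ) (hn : 1 ≤ n) {a b : ℤ} (ha : -(n : ℤ) ≤ a) (hab : a ≤ b)
    (hb : b ≤ n + 2) :
    Je n (fun t => Y 1 t b) a - Je n (fun t => Y 1 t a) b = κ n a b := by
  rcases hab.eq_or_lt with rfl | hab
  · rw [sub_self]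
    unfold κ
    split_ifs <;> first | omega | norm_num
  -- classes of `b`
  have hz := fun d (h : d ≤ (1 : ℤ)) => H_zero 1 h
  have gz := fun d (h : d ≤ (1 : ℤ)) => G_zero 1 h
  by_cases hb0 : b ≤ 0
  · -- both on the tail: everything is zero
    have e1 : Je n (fun t => Y 1 t b) a = 0 := by
      unfold Je
      rw [if_neg (by omega), if_neg (by omega), if_neg (by omega)]
      split_ifs
      · simp only
        rw [Y_le 1 (by omega), Y_le 1 (by omega), gz _ (by omega), gz _ (by omega), add_zero]
      · simp only
        rw [Y_le 1 (by omega), Y_le 1 (by omega), gz _ (by omega), gz _ (by omega), add_zero]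
    have e2 : Je n (fun t => Y 1 t a) b = 0 := by
      unfold Je
      rw [if_neg (by omega)]
      by_cases h0 : b = 0
      · rw [if_pos h0]
        simp only
        rw [Y_ge 1 (by omega), Y_ge 1 (by omega), Y_ge 1 (by omega), gz _ (by omega),
          gz _ (by omega), gz _ (by omega)]
        norm_num
      · rw [if_neg h0, if_neg (by omega), if_neg (by omega)]
        simp only
        rw [Y_ge 1 (by omega), Y_ge 1 (by omega), gz _ (by omega), gz _ (by omega), add_zero]
    rw [e1, e2]
    unfold κ
    rw [if_neg (by omega), if_neg (by omega), if_neg (by omega), if_neg (by omega)]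
    norm_num
  · by_cases hb1 : b = 1
    · subst hb1
      have e2 : Je n (fun t => Y 1 t a) 1 = G 1 (2 + a) + G 1 (1 + a) := by
        unfold Je
        rw [if_neg (by omega), if_neg (by omega), if_pos rfl]
        simp only
        rw [Y_ge 1 (by omega : a ≤ 0), Y_ge 1 (by omega : a ≤ 0), Y_ge 1 (by omega : a ≤ 0),
          gz (0 + a) (by omega), add_zero]
      rw [e2]
      by_cases ha0 : a = 0
      · subst ha0
        unfold Je κ
        rw [if_neg (by omega), if_pos rfl, if_pos (by omega), if_neg (by omega), if_neg (by omega),
          if_neg (by omega)]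
        simp only
        rw [Y_pos 1 le_rfl le_rfl, Y_le 1 (by omega), Y_le 1 (by omega), hz _ (by omega),
          gz _ (by omega), gz _ (by omega)]
        unfold G
        norm_num
        rw [H_two, hz _ (by omega)]
        norm_num
      · have e1 : Je n (fun t => Y 1 t 1) a = 0 := by
          unfold Je
          rw [if_neg (by omega), if_neg (by omega), if_neg (by omega)]
          split_ifs
          · simp only
            rw [Y_le 1 (by omega), Y_le 1 (by omega), gz _ (by omega), gz _ (by omega), add_zero]
          · simp only
            rw [Y_le 1 (by omega), Y_le 1 (by omega), gz _ (by omega), gz _ (by omega), add_zero]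
        rw [e1, gz _ (by omega), gz _ (by omega)]
        unfold κ
        rw [if_neg (by omega), if_neg (by omega), if_neg (by omega), if_neg (by omega)]
        norm_num
    · by_cases hb2 : b = n + 2
      · -- the antipode
        subst hb2
        have e2 : Je n (fun t => Y 1 t a) (n + 2) = 2 * Y 1 (n + 1) a + 2 * Y 1 (n + 2) a := by
          unfold Je
          rw [if_pos rfl]
        rw [e2]
        by_cases ha0 : a ≤ 0
        · rw [Y_ge 1 ha0, Y_ge 1 ha0]
          by_cases ha00 : a = 0
          · subst ha00
            unfold Je κ
            rw [if_neg (by omega), if_pos rfl, if_neg (by omega), if_neg (by omega),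
              if_neg (by omega), if_neg (by omega)]
            simp only
            rw [Y_pos 1 le_rfl (by omega), Y_le 1 (by omega), Y_le 1 (by omega)]
            unfold G
            have r := H_rec 1 (show (2 : ℤ) ≤ n + 1 by omega)
            rw [show (n : ℤ) + 1 + 1 = n + 2 by ring, show (n : ℤ) + 1 - 1 = n by ring] at r
            rw [show (n : ℤ) + 2 - 1 = n + 1 by ring, show (-1 : ℤ) + (n + 2) = n + 1 by ring,
              show (n : ℤ) + 1 - 1 = n by ring, show (0 : ℤ) + (n + 2) = n + 2 by ring,
              show (n : ℤ) + 2 - 1 = n + 1 by ring, show (n : ℤ) + 1 + 0 = n + 1 by ring,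
              show (n : ℤ) + 2 + 0 = n + 2 by ring, show (n : ℤ) + 1 - 1 = n by ring,
              show (n : ℤ) + 2 - 1 = n + 1 by ring]
            linear_combination -r
          · have hk : κ n a (n + 2) = 0 := by
              unfold κ
              rw [if_neg (by omega), if_neg (by omega), if_neg (by omega), if_neg (by omega)]
              norm_num
            rw [hk]
            unfold Je
            rw [if_neg (by omega), if_neg (by omega), if_neg (by omega)]
            by_cases han : a = -n
            · rw [if_pos han]
              subst han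
              simp only
              rw [Y_le 1 (by omega), Y_le 1 (by omega)]
              rw [show -(n : ℤ) + 1 + (n + 2) = 3 by ring, show -(n : ℤ) + (n + 2) = 2 by ring,
                show (n : ℤ) + 1 + -n = 1 by ring, show (n : ℤ) + 2 + -n = 2 by ring,
                gz 1 le_rfl]
              unfold G
              have r := H_rec 1 (show (2 : ℤ) ≤ 2 by omega)
              norm_num at r ⊢
              rw [hz 1 le_rfl] at r ⊢
              rw [H_two] at r ⊢
              linear_combination r
            · rw [if_neg han]
              simp only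
              rw [Y_le 1 (by omega), Y_le 1 (by omega)]
              unfold G
              have r1 := H_rec 1 (show (2 : ℤ) ≤ a + n + 2 by omega)
              have r2 := H_rec 1 (show (2 : ℤ) ≤ a + n + 1 by omega)
              rw [show a + n + 2 + 1 = a + n + 3 by ring, show a + n + 2 - 1 = a + n + 1 by ring] at r1
              rw [show a + n + 1 + 1 = a + n + 2 by ring, show a + n + 1 - 1 = a + n by ring] at r2
              rw [show a + 1 + ((n : ℤ) + 2) = a + n + 3 by ring,
                show a + (n : ℤ) + 3 - 1 = a + n + 2 by ring,
                show a - 1 + ((n : ℤ) + 2) = a + n + 1 by ring,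
                show a + (n : ℤ) + 1 - 1 = a + n by ring,
                show (n : ℤ) + 1 + a = a + n + 1 by ring,
                show (n : ℤ) + 2 + a = a + n + 2 by ring,
                show a + (n : ℤ) + 1 - 1 = a + n by ring,
                show a + (n : ℤ) + 2 - 1 = a + n + 1 by ring]
              linear_combination r1 - r2
        · -- `1 ≤ a ≤ n + 1`
          rw [Y_pos' 1 (by omega : 1 ≤ a) (by omega), Y_pos' 1 (by omega : 1 ≤ a) (by omega)]
          by_cases ha1 : a = 1
          · subst ha1
            unfold Je κ
            rw [if_neg (by omega), if_neg (by omega), if_pos rfl, if_neg (by omega),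
              if_neg (by omega), if_neg (by omega), if_neg (by omega)]
            simp only
            rw [Y_pos 1 (by omega) (by omega), Y_le 1 (by omega), Y_pos 1 (by omega) (by omega)]
            unfold G
            have r := H_rec 1 (show (2 : ℤ) ≤ n + 1 by omega)
            rw [show (n : ℤ) + 1 + 1 = n + 2 by ring, show (n : ℤ) + 1 - 1 = n by ring] at r
            rw [show (n : ℤ) + 2 - 2 = n by ring, show (0 : ℤ) + (n + 2) = n + 2 by ring,
              show (n : ℤ) + 2 - 1 = n + 1 by ring, show (n : ℤ) + 1 - 1 = n by ring]
            linear_combination r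
          · unfold Je
            rw [if_neg (by omega), if_neg (by omega), if_neg (by omega), if_neg (by omega)]
            simp only
            rw [Y_pos 1 (by omega) (by omega), Y_pos 1 (by omega) (by omega)]
            by_cases ha2 : a = n + 1
            · subst ha2
              unfold κ
              rw [if_neg (by omega), if_neg (by omega), if_neg (by omega), if_pos (by omega)]
              rw [show (n : ℤ) + 2 - (n + 1 + 1) = 0 by ring,
                show (n : ℤ) + 2 - (n + 1 - 1) = 2 by ring,
                show (n : ℤ) + 1 - (n + 1) = 0 by ring,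
                show (n : ℤ) + 2 - (n + 1) = 1 by ring, H_two, hz 0 (by omega), hz 1 le_rfl]
              norm_num
            · unfold κ
              rw [if_neg (by omega), if_neg (by omega), if_neg (by omega), if_neg (by omega)]
              have r := H_rec 1 (show (2 : ℤ) ≤ n + 2 - a by omega)
              rw [show (n : ℤ) + 2 - (a + 1) = n + 1 - a by ring,
                show (n : ℤ) + 2 - (a - 1) = n + 2 - a + 1 by ring, r,
                show (n : ℤ) + 2 - a - 1 = n + 1 - a by ring]
              ring
      · -- `2 ≤ b ≤ n + 1`
        have e2 : Je n (fun t => Y 1 t a) b = Y 1 (b + 1) a + Y 1 (b - 1) a := by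
          unfold Je
          rw [if_neg (by omega), if_neg (by omega), if_neg (by omega), if_neg (by omega)]
        rw [e2]
        have hk : κ n a b = 0 := by
          unfold κ
          rw [if_neg (by omega), if_neg (by omega), if_neg (by omega), if_neg (by omega)]
          norm_num
        rw [hk]
        by_cases ha0 : a ≤ 0
        · rw [Y_ge 1 ha0, Y_ge 1 ha0]
          by_cases ha00 : a = 0
          · subst ha00
            unfold Je
            rw [if_neg (by omega), if_pos rfl]
            simp only
            rw [Y_pos 1 le_rfl (by omega), Y_le 1 (by omega), Y_le 1 (by omega)]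
            unfold G
            have r := H_rec 1 (show (2 : ℤ) ≤ b by omega)
            rw [show (-1 : ℤ) + b = b - 1 by ring, show (0 : ℤ) + b = b by ring,
              show b + 1 + 0 = b + 1 by ring, show b + 1 - 1 = b by ring,
              show b - 1 + 0 = b - 1 by ring]
            linear_combination -r
          · unfold Je
            rw [if_neg (by omega), if_neg (by omega), if_neg (by omega)]
            by_cases han : a = -n
            · rw [if_pos han]
              subst han
              simp only
              rw [Y_le 1 (by omega), Y_le 1 (by omega), gz (-n + b) (by omega),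
                gz (b - 1 + -n) (by omega), show -(n : ℤ) + 1 + b = b + 1 + -n by ring]
              ring
            · rw [if_neg han]
              simp only
              rw [Y_le 1 (by omega), Y_le 1 (by omega), show a + 1 + b = b + 1 + a by ring,
                show a - 1 + b = b - 1 + a by ring]
              ring
        · rw [Y_pos' 1 (by omega : 1 ≤ a) (by omega), Y_pos' 1 (by omega : 1 ≤ a) (by omega)]
          by_cases ha1 : a = 1
          · subst ha1
            unfold Je
            rw [if_neg (by omega), if_neg (by omega), if_pos rfl]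
            simp only
            rw [Y_pos 1 (by omega) (by omega), Y_le 1 (by omega), Y_pos 1 (by omega) (by omega)]
            unfold G
            rw [show (0 : ℤ) + b = b by ring, show b + 1 - 1 = b by ring,
              show b - 1 - 1 = b - 2 by ring]
            ring
          · unfold Je
            rw [if_neg (by omega), if_neg (by omega), if_neg (by omega), if_neg (by omega)]
            simp only
            rw [Y_pos 1 (by omega) (by omega), Y_pos 1 (by omega) (by omega),
              show b - (a + 1) = b - 1 - a by ring, show b - (a - 1) = b + 1 - a by ring]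
            ring

theorem pos_e (n : ℕ) (hn : 1 ≤ n) {a b : ℤ} (ha : -(n : ℤ) ≤ a) (ha' : a ≤ n + 2)
    (hb : -(n : ℤ) ≤ b) (hb' : b ≤ n + 2) :
    Je n (fun t => Y 1 t b) a - Je n (fun t => Y 1 t a) b = κ n a b := by
  rcases le_total a b with h | h
  · exact pos_e_le n hn ha h hb'
  · have := pos_e_le n hn hb h ha'
    rw [κ_swap]
    linarith

end Pool.Agent.U955.TP
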