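import Mathlib

set_option autoImplicit false

/-!
The reflected part of the matrix on `T_{2n+5,n}`: the integer identity.
-/

namespace Pool.Agent.U955.TP

/-- the reflected adjacency -/
def ZI (n i j : ℕ) : ℤ :=
  if i ≠ j ∧ i ≠ 0 ∧ j ≠ 0 ∧ (i + j = 2 * n + 6 ∨ i + j = 2 * n + 4 ∨
    (i + j = 2 * n + 5 ∧ (i = 1 ∨ j = 1))) then 1 else 0

theorem ZI_comm (n i j : ℕ) : ZI n i j = ZI n j i := by
  unfold ZI
  split_ifs <;> first | rfl | omega

/-- loops -/
def LI (n i : ℕ) : ℤ := if i = 1 ∨ i = n + 2 ∨ i = n + 3 ∨ i = 2 * n + 4 then 1 else 0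

/-- the action of the matrix on a column of `ZI` -/
def SI (n i j : ℕ) : ℤ :=
  (if i + 1 < 2 * n + 5 then ZI n (i + 1) j else 0) + (if 1 ≤ i then ZI n (i - 1) j else 0) +
      (if i = 0 then ZI n (2 * n + 4) j else 0) + (if i + 1 = 2 * n + 5 then ZI n 0 j else 0) +
      LI n i * ZI n i j

/-- distance from `c_0` -/
def roI (n i : ℕ) : ℤ := if i ≤ n + 2 then i else 2 * n + 5 - i

/-- the defect -/
def kI (n : ℕ) (a b : ℤ) : ℤ :=
  (if a = 0 ∧ (b = 1 ∨ b = 2) then -1 else 0) + (if (a = 1 ∨ a = 2) ∧ b = 0 then 1 else 0) +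
  (if a = n + 2 ∧ b = n + 1 then -1 else 0) + (if a = n + 1 ∧ b = n + 2 then 1 else 0)

theorem kI_swap (n : ℕ) (a b : ℤ) : kI n a b = - kI n b a := by
  unfold kI
  split_ifs <;> first | rfl | omega

theorem ZI_one {n i j : ℕ} (h : i ≠ j ∧ i ≠ 0 ∧ j ≠ 0 ∧ (i + j = 2 * n + 6 ∨ i + j = 2 * n + 4 ∨
    (i + j = 2 * n + 5 ∧ (i = 1 ∨ j = 1)))) : ZI n i j = 1 := if_pos h

theorem ZI_zero {n i j : ℕ} (h : ¬ (i ≠ j ∧ i ≠ 0 ∧ j ≠ 0 ∧ (i + j = 2 * n + 6 ∨
    i + j = 2 * n + 4 ∨ (i + j = 2 * n + 5 ∧ (i = 1 ∨ j = 1))))) : ZI n i j = 0 := if_neg h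

theorem kI_zero {n : ℕ} {a b : ℤ} (h1 : ¬ (a = 0 ∧ (b = 1 ∨ b = 2)))
    (h2 : ¬ ((a = 1 ∨ a = 2) ∧ b = 0)) (h3 : ¬ (a = n + 2 ∧ b = n + 1))
    (h4 : ¬ (a = n + 1 ∧ b = n + 2)) : kI n a b = 0 := by
  unfold kI
  rw [if_neg h1, if_neg h2, if_neg h3, if_neg h4]
  rfl

theorem ro_low {n i : ℕ} (h : i ≤ n + 2) : roI n i = i := if_pos h

theorem ro_high {n i : ℕ} (h : n + 3 ≤ i) : roI n i = 2 * n + 5 - i := if_neg (by omega)

theorem kI_row0 (n j : ℕ) (hn : 1 ≤ n) (hj : j < 2 * n + 5) :
    SI n 0 j - SI n j 0 = - kI n 0 (roI n j) := by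
  have e2 : SI n j 0 = 0 := by
    unfold SI
    have z : ∀ a, ZI n a 0 = 0 := fun a => ZI_zero (by omega)
    simp [z]
  have e1 : SI n 0 j = ZI n 1 j + ZI n (2 * n + 4) j := by
    unfold SI
    rw [if_pos (by omega), if_neg (by omega), if_pos rfl, if_neg (by omega),
      ZI_zero (i := 0) (j := j) (by omega)]
    norm_num
  rw [e1, e2]
  by_cases c1 : j = 1
  · subst c1
    rw [ZI_zero (by omega), ZI_one (by omega), ro_low (by omega)]
    unfold kI
    rw [if_pos (by norm_num), if_neg (by norm_num), if_neg (by omega), if_neg (by omega)]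
    norm_num
  by_cases c2 : j = 2
  · subst c2
    rw [ZI_zero (by omega), ZI_one (by omega), ro_low (by omega)]
    unfold kI
    rw [if_pos (by norm_num), if_neg (by norm_num), if_neg (by omega), if_neg (by omega)]
    norm_num
  by_cases c3 : j = 2 * n + 4
  · subst c3
    rw [ZI_one (by omega), ZI_zero (by omega), ro_high (by omega)]
    unfold kI
    rw [if_pos (by omega), if_neg (by omega), if_neg (by omega), if_neg (by omega)]
    norm_num
  by_cases c4 : j = 2 * n + 3
  · subst c4
    rw [ZI_one (by omega), ZI_zero (by omega), ro_high (by omega)]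
    unfold kI
    rw [if_pos (by omega), if_neg (by omega), if_neg (by omega), if_neg (by omega)]
    norm_num
  · rw [ZI_zero (by omega), ZI_zero (by omega)]
    have hr : roI n j ≠ 1 ∧ roI n j ≠ 2 := by
      unfold roI
      split_ifs <;> omega
    rw [kI_zero (by omega) (by omega) (by omega) (by omega)]
    norm_num

theorem SI_pos {n i j : ℕ} (h : 1 ≤ i) : SI n i j =
    (if i + 1 < 2 * n + 5 then ZI n (i + 1) j else 0) + ZI n (i - 1) j + LI n i * ZI n i j := by
  unfold SI
  rw [if_pos h, if_neg (by omega : ¬ i = 0)]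
  have : ZI n 0 j = 0 := ZI_zero (by omega)
  rw [this]
  split_ifs <;> ring

theorem kI_le (n i j : ℕ) (hn : 1 ≤ n) (hj : j < 2 * n + 5) (h0 : 1 ≤ i) (h : i < j) :
    SI n i j - SI n j i = - kI n (roI n i) (roI n j) := by
  rw [SI_pos h0, SI_pos (by omega : 1 ≤ j), if_pos (by omega : i + 1 < 2 * n + 5)]
  by_cases c1 : i + j = 2 * n + 5
  · have hk : kI n (roI n i) (roI n j) = 0 := by
      rw [ro_low (by omega), ro_high (by omega)]
      exact kI_zero (by omega) (by omega) (by omega) (by omega)
    have a1 : ZI n (i + 1) j = if i = n + 2 then 0 else 1 := by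
      split_ifs
      · exact ZI_zero (by omega)
      · exact ZI_one (by omega)
    have a2 : ZI n (j - 1) i = if i = n + 2 then 0 else 1 := by
      split_ifs
      · exact ZI_zero (by omega)
      · exact ZI_one (by omega)
    rw [hk, a1, a2]
    by_cases d : i = 1
    · rw [if_neg (by omega : ¬ j + 1 < 2 * n + 5), ZI_zero (i := i - 1) (by omega),
        ZI_one (i := i) (j := j) (by omega), ZI_one (i := j) (j := i) (by omega)]
      have l1 : LI n i = 1 := if_pos (by omega)
      have l2 : LI n j = 1 := if_pos (by omega)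
      rw [l1, l2]
      ring
    · rw [if_pos (by omega : j + 1 < 2 * n + 5), ZI_one (i := i - 1) (by omega),
        ZI_zero (i := i) (j := j) (by omega), ZI_zero (i := j) (j := i) (by omega),
        ZI_one (i := j + 1) (by omega)]
      ring
  by_cases c2 : i + j = 2 * n + 6
  · rw [ZI_zero (i := i + 1) (by omega), ZI_zero (i := j - 1) (by omega),
      ZI_one (i := i) (j := j) (by omega), ZI_one (i := j) (j := i) (by omega)]
    have a0 : (if j + 1 < 2 * n + 5 then ZI n (j + 1) i else 0) = 0 := by
      rw [ZI_zero (by omega), ite_self]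
    have a1 : ZI n (i - 1) j = if i = 2 then 1 else 0 := by
      split_ifs
      · exact ZI_one (by omega)
      · exact ZI_zero (by omega)
    have l1 : LI n i = if i = n + 2 then 1 else 0 := by
      unfold LI
      split_ifs <;> first | rfl | omega
    have l2 : LI n j = if i = 2 then 1 else 0 := by
      unfold LI
      split_ifs <;> first | rfl | omega
    have hk : kI n (roI n i) (roI n j) = if i = n + 2 then -1 else 0 := by
      rw [ro_low (by omega), ro_high (by omega)]
      split_ifs with d
      · unfold kI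
        rw [if_neg (by omega), if_neg (by omega), if_pos (by omega), if_neg (by omega)]
        norm_num
      · exact kI_zero (by omega) (by omega) (by omega) (by omega)
    rw [a0, a1, l1, l2, hk]
    split_ifs <;> norm_num
  by_cases c3 : i + j = 2 * n + 4
  · rw [ZI_zero (i := i + 1) (by omega), ZI_zero (i := j - 1) (by omega),
      ZI_zero (i := i - 1) (by omega),
      ZI_one (i := i) (j := j) (by omega), ZI_one (i := j) (j := i) (by omega),
      if_pos (by omega : j + 1 < 2 * n + 5)]
    have a1 : ZI n (j + 1) i = if i = 1 then 1 else 0 := by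
      split_ifs
      · exact ZI_one (by omega)
      · exact ZI_zero (by omega)
    have l1 : LI n i = if i = 1 then 1 else 0 := by
      unfold LI
      split_ifs <;> first | rfl | omega
    have l2 : LI n j = if i = n + 1 then 1 else 0 := by
      unfold LI
      split_ifs <;> first | rfl | omega
    have hk : kI n (roI n i) (roI n j) = if i = n + 1 then 1 else 0 := by
      rw [ro_low (by omega), ro_high (by omega)]
      split_ifs with d
      · unfold kI
        rw [if_neg (by omega), if_neg (by omega), if_neg (by omega), if_pos (by omega)]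
        norm_num
      · exact kI_zero (by omega) (by omega) (by omega) (by omega)
    rw [a1, l1, l2, hk]
    split_ifs <;> norm_num
  by_cases c4 : i + j = 2 * n + 7
  · rw [ZI_zero (i := i + 1) (by omega), ZI_one (i := i - 1) (by omega),
      ZI_zero (i := i) (j := j) (by omega), ZI_zero (i := j) (j := i) (by omega)]
    have a0 : (if j + 1 < 2 * n + 5 then ZI n (j + 1) i else 0) = 0 := by
      rw [ZI_zero (by omega), ite_self]
    have a1 : ZI n (j - 1) i = if i = n + 3 then 0 else 1 := by
      split_ifs
      · exact ZI_zero (by omega)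
      · exact ZI_one (by omega)
    have hk : kI n (roI n i) (roI n j) = if i = n + 3 then -1 else 0 := by
      split_ifs with d
      · rw [ro_high (by omega), ro_high (by omega)]
        unfold kI
        rw [if_neg (by omega), if_neg (by omega), if_pos (by omega), if_neg (by omega)]
        norm_num
      · rw [ro_low (by omega), ro_high (by omega)]
        exact kI_zero (by omega) (by omega) (by omega) (by omega)
    rw [a0, a1, hk]
    split_ifs <;> norm_num
  by_cases c5 : i + j = 2 * n + 3
  · rw [ZI_zero (i := i - 1) (by omega), ZI_zero (i := j - 1) (by omega),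
      ZI_zero (i := i) (j := j) (by omega), ZI_zero (i := j) (j := i) (by omega),
      if_pos (by omega : j + 1 < 2 * n + 5), ZI_one (i := j + 1) (by omega)]
    have a1 : ZI n (i + 1) j = if i = n + 1 then 0 else 1 := by
      split_ifs
      · exact ZI_zero (by omega)
      · exact ZI_one (by omega)
    have hk : kI n (roI n i) (roI n j) = if i = n + 1 then 1 else 0 := by
      split_ifs with d
      · rw [ro_low (by omega), ro_low (by omega)]
        unfold kI
        rw [if_neg (by omega), if_neg (by omega), if_neg (by omega), if_pos (by omega)]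
        norm_num
      · rw [ro_low (by omega), ro_high (by omega)]
        exact kI_zero (by omega) (by omega) (by omega) (by omega)
    rw [a1, hk]
    split_ifs <;> norm_num
  · have a0 : (if j + 1 < 2 * n + 5 then ZI n (j + 1) i else 0) = 0 := by
      rw [ZI_zero (by omega), ite_self]
    rw [a0, ZI_zero (i := i + 1) (by omega), ZI_zero (i := i - 1) (by omega),
      ZI_zero (i := j - 1) (by omega), ZI_zero (i := i) (j := j) (by omega),
      ZI_zero (i := j) (j := i) (by omega)]
    have hk : kI n (roI n i) (roI n j) = 0 := by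
      have b1 : roI n i ≠ 0 := by
        unfold roI
        split_ifs <;> omega
      have b2 : roI n j ≠ 0 := by
        unfold roI
        split_ifs <;> omega
      refine kI_zero (by omega) (by omega) ?_ ?_
      · unfold roI
        split_ifs <;> omega
      · unfold roI
        split_ifs <;> omega
    rw [hk]
    ring

theorem kI_all (n i j : ℕ) (hn : 1 ≤ n) (hi : i < 2 * n + 5) (hj : j < 2 * n + 5) :
    SI n i j - SI n j i = - kI n (roI n i) (roI n j) := by
  have z0 : roI n 0 = 0 := ro_low (by omega)
  rcases Nat.lt_trichotomy i j with h | h | h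
  · rcases Nat.eq_zero_or_pos i with rfl | h0
    · rw [kI_row0 n j hn hj, z0]
    · exact kI_le n i j hn hj h0 h
  · subst h
    have : kI n (roI n i) (roI n i) = 0 :=
      kI_zero (by omega) (by omega) (by omega) (by omega)
    rw [this]
    ring
  · rcases Nat.eq_zero_or_pos j with rfl | h0
    · have := kI_row0 n i hn hi
      rw [z0, kI_swap]
      linarith
    · have := kI_le n j i hn hi h0 h
      rw [kI_swap]
      linarith

end Pool.Agent.U955.TP
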