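import Pool.Agent.U955.TP.Core
import Pool.Agent.U955.TP.OddZ

set_option autoImplicit false

/-!
The folded identity for `T_{2n+5,n}`.
-/

namespace Pool.Agent.U955.TP

/-- the folded operator of `T_{2n+5,n}` -/
def Jo (n : ℕ) (F : ℤ → ℝ) (a : ℤ) : ℝ :=
  if a = n + 2 then F (n + 1) + 2 * F (n + 2)
  else if a = 0 then 2 * F 1 + F (-1)
  else if a = 1 then F 2 + F 0 + F 1
  else if a = -n then F (-n + 1) + F (-n)
  else F (a + 1) + F (a - 1)

theorem Jo_K (n : ℕ) (F : ℤ → ℝ) : Jo n F (n + 2) = F (n + 1) + 2 * F (n + 2) := if_pos rfl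

theorem Jo_0 (n : ℕ) (F : ℤ → ℝ) : Jo n F 0 = 2 * F 1 + F (-1) := by
  unfold Jo
  rw [if_neg (by omega), if_pos rfl]

theorem Jo_1 (n : ℕ) (F : ℤ → ℝ) : Jo n F 1 = F 2 + F 0 + F 1 := by
  unfold Jo
  rw [if_neg (by omega), if_neg (by omega), if_pos rfl]

theorem Jo_leaf (n : ℕ) (hn : 1 ≤ n) (F : ℤ → ℝ) : Jo n F (-n) = F (-n + 1) + F (-n) := by
  unfold Jo
  rw [if_neg (by omega), if_neg (by omega), if_neg (by omega), if_pos rfl]

theorem Jo_gen (n : ℕ) (F : ℤ → ℝ) {a : ℤ} (h1 : a ≠ n + 2) (h2 : a ≠ 0) (h3 : a ≠ 1)
    (h4 : a ≠ -n) : Jo n F a = F (a + 1) + F (a - 1) := by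
  unfold Jo
  rw [if_neg h1, if_neg h2, if_neg h3, if_neg h4]

/-- the identity on the folded path, `a ≤ b` -/
theorem pos_o_le (n : ℕ) (hn : 1 ≤ n) {a b : ℤ} (ha : -(n : ℤ) ≤ a) (hab : a ≤ b)
    (hb : b ≤ n + 2) :
    Jo n (fun t => Y 0 t b) a - Jo n (fun t => Y 0 t a) b = kI n a b := by
  rcases hab.eq_or_lt with rfl | hab
  · rw [sub_self, kI_zero (by omega) (by omega) (by omega) (by omega)]
    norm_num
  have hz := fun d (h : d ≤ (1 : ℤ)) => H_zero 0 h
  have gz := fun d (h : d ≤ (1 : ℤ)) => G_zero 0 h
  have hr : ∀ d : ℤ, 2 ≤ d → H 0 (d + 1) = 2 * H 0 d := by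
    intro d hd
    rw [H_rec 0 hd]
    ring
  by_cases hb0 : b ≤ 0
  · have e1 : Jo n (fun t => Y 0 t b) a = 0 := by
      by_cases h : a = -n
      · subst h
        rw [Jo_leaf n hn]
        rw [Y_le 0 (by omega), Y_le 0 (by omega), gz _ (by omega), gz _ (by omega), add_zero]
      · rw [Jo_gen n _ (by omega) (by omega) (by omega) h]
        rw [Y_le 0 (by omega), Y_le 0 (by omega), gz _ (by omega), gz _ (by omega), add_zero]
    have e2 : Jo n (fun t => Y 0 t a) b = 0 := by
      by_cases h0 : b = 0
      · subst h0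
        rw [Jo_0]
        rw [Y_ge 0 (by omega), Y_ge 0 (by omega), gz _ (by omega), gz _ (by omega)]
        norm_num
      · rw [Jo_gen n _ (by omega) h0 (by omega) (by omega)]
        rw [Y_ge 0 (by omega), Y_ge 0 (by omega), gz _ (by omega), gz _ (by omega), add_zero]
    rw [e1, e2, kI_zero (by omega) (by omega) (by omega) (by omega)]
    norm_num
  by_cases hb1 : b = 1
  · subst hb1
    have e2 : Jo n (fun t => Y 0 t a) 1 = G 0 (2 + a) + G 0 (1 + a) := by
      rw [Jo_1]
      rw [Y_ge 0 (by omega : a ≤ 0), Y_ge 0 (by omega : a ≤ 0), Y_ge 0 (by omega : a ≤ 0),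
        gz (0 + a) (by omega), add_zero]
    rw [e2]
    by_cases ha0 : a = 0
    · subst ha0
      have hk : kI n 0 1 = -1 := by
        unfold kI
        rw [if_pos (by norm_num), if_neg (by norm_num), if_neg (by omega), if_neg (by omega)]
        norm_num
      rw [Jo_0, hk]
      rw [Y_pos 0 le_rfl le_rfl, Y_le 0 (by omega), hz _ (by omega), gz _ (by omega),
        gz (1 + 0) (by omega)]
      unfold G
      norm_num
      rw [H_two, hz _ (by omega)]
      norm_num
    · have e1 : Jo n (fun t => Y 0 t 1) a = 0 := by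
        by_cases h : a = -n
        · subst h
          rw [Jo_leaf n hn]
          rw [Y_le 0 (by omega), Y_le 0 (by omega), gz _ (by omega), gz _ (by omega), add_zero]
        · rw [Jo_gen n _ (by omega) (by omega) (by omega) h]
          rw [Y_le 0 (by omega), Y_le 0 (by omega), gz _ (by omega), gz _ (by omega), add_zero]
      rw [e1, gz _ (by omega), gz _ (by omega),
        kI_zero (by omega) (by omega) (by omega) (by omega)]
      norm_num
  by_cases hb2 : b = n + 2
  · subst hb2
    rw [Jo_K n (fun t => Y 0 t a)]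
    by_cases ha0 : a ≤ 0
    · rw [Y_ge 0 ha0, Y_ge 0 ha0]
      rw [kI_zero (by omega) (by omega) (by omega) (by omega)]
      by_cases ha00 : a = 0
      · subst ha00
        rw [Jo_0]
        rw [Y_pos 0 le_rfl (by omega), Y_le 0 (by omega)]
        unfold G
        have r := hr (n + 1) (by omega)
        rw [show (n : ℤ) + 1 + 1 = n + 2 by ring] at r
        rw [show (n : ℤ) + 2 - 1 = n + 1 by ring, show (-1 : ℤ) + (n + 2) = n + 1 by ring,
          show (n : ℤ) + 1 - 1 = n by ring, show (n : ℤ) + 1 + 0 = n + 1 by ring,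
          show (n : ℤ) + 2 + 0 = n + 2 by ring, show (n : ℤ) + 1 - 1 = n by ring,
          show (n : ℤ) + 2 - 1 = n + 1 by ring]
        push_cast
        linear_combination -2 * r
      · by_cases han : a = -n
        · subst han
          rw [Jo_leaf n hn]
          rw [Y_le 0 (by omega), Y_le 0 (by omega)]
          rw [show -(n : ℤ) + 1 + (n + 2) = 3 by ring, show -(n : ℤ) + (n + 2) = 2 by ring,
            show (n : ℤ) + 1 + -n = 1 by ring, show (n : ℤ) + 2 + -n = 2 by ring,
            gz 1 le_rfl]
          unfold G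
          have r := hr 2 le_rfl
          norm_num at r ⊢
          rw [hz 1 le_rfl]
          rw [H_two] at r ⊢
          linear_combination r
        · rw [Jo_gen n _ (by omega) (by omega) (by omega) han]
          rw [Y_le 0 (by omega), Y_le 0 (by omega)]
          unfold G
          have r1 := hr (a + n + 2) (by omega)
          have r2 := hr (a + n + 1) (by omega)
          rw [show a + n + 2 + 1 = a + n + 3 by ring] at r1
          rw [show a + n + 1 + 1 = a + n + 2 by ring] at r2
          rw [show a + 1 + ((n : ℤ) + 2) = a + n + 3 by ring,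
            show a + (n : ℤ) + 3 - 1 = a + n + 2 by ring,
            show a - 1 + ((n : ℤ) + 2) = a + n + 1 by ring,
            show a + (n : ℤ) + 1 - 1 = a + n by ring,
            show (n : ℤ) + 1 + a = a + n + 1 by ring,
            show (n : ℤ) + 2 + a = a + n + 2 by ring,
            show a + (n : ℤ) + 1 - 1 = a + n by ring,
            show a + (n : ℤ) + 2 - 1 = a + n + 1 by ring]
          push_cast
          linear_combination r1 - r2
    · rw [Y_pos' 0 (by omega : 1 ≤ a) (by omega), Y_pos' 0 (by omega : 1 ≤ a) (by omega)]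
      by_cases ha1 : a = 1
      · subst ha1
        rw [kI_zero (by omega) (by omega) (by omega) (by omega), Jo_1]
        rw [Y_pos 0 (by omega) (by omega), Y_le 0 (by omega), Y_pos 0 (by omega) (by omega)]
        unfold G
        have r := hr (n + 1) (by omega)
        rw [show (n : ℤ) + 1 + 1 = n + 2 by ring] at r
        rw [show (n : ℤ) + 2 - 2 = n by ring, show (0 : ℤ) + (n + 2) = n + 2 by ring,
          show (n : ℤ) + 2 - 1 = n + 1 by ring, show (n : ℤ) + 1 - 1 = n by ring]
        push_cast
        linear_combination r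
      · rw [Jo_gen n _ (by omega) (by omega) (by omega) (by omega)]
        rw [Y_pos 0 (by omega) (by omega), Y_pos 0 (by omega) (by omega)]
        by_cases ha2 : a = n + 1
        · subst ha2
          have hk : kI n (n + 1) (n + 2) = 1 := by
            unfold kI
            rw [if_neg (by omega), if_neg (by omega), if_neg (by omega), if_pos (by omega)]
            norm_num
          rw [hk, show (n : ℤ) + 2 - (n + 1 + 1) = 0 by ring,
            show (n : ℤ) + 2 - (n + 1 - 1) = 2 by ring,
            show (n : ℤ) + 1 - (n + 1) = 0 by ring,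
            show (n : ℤ) + 2 - (n + 1) = 1 by ring, H_two, hz 0 (by omega), hz 1 le_rfl]
          norm_num
        · rw [kI_zero (by omega) (by omega) (by omega) (by omega)]
          have r := hr (n + 2 - a) (by omega)
          rw [show (n : ℤ) + 2 - (a + 1) = n + 1 - a by ring,
            show (n : ℤ) + 2 - (a - 1) = n + 2 - a + 1 by ring, r]
          push_cast
          ring
  -- `2 ≤ b ≤ n + 1`
  rw [Jo_gen n (fun t => Y 0 t a) (a := b) (by omega) (by omega) (by omega) (by omega)]
  by_cases ha0 : a ≤ 0
  · rw [Y_ge 0 ha0, Y_ge 0 ha0]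
    by_cases ha00 : a = 0
    · subst ha00
      rw [Jo_0]
      rw [Y_pos 0 le_rfl (by omega), Y_le 0 (by omega)]
      unfold G
      have r := hr b (by omega)
      rw [show (-1 : ℤ) + b = b - 1 by ring,
        show b + 1 + 0 = b + 1 by ring, show b + 1 - 1 = b by ring,
        show b - 1 + 0 = b - 1 by ring]
      by_cases hb3 : b = 2
      · subst hb3
        have hk : kI n 0 2 = -1 := by
          unfold kI
          rw [if_pos (by norm_num), if_neg (by norm_num), if_neg (by omega), if_neg (by omega)]
          norm_num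
        rw [hk]
        norm_num at r ⊢
        rw [r, H_two, hz 1 le_rfl]
        norm_num
      · have r' := hr (b - 1) (by omega)
        rw [show b - 1 + 1 = b by ring] at r'
        rw [kI_zero (by omega) (by omega) (by omega) (by omega)]
        push_cast
        linear_combination -r - r'
    · rw [kI_zero (by omega) (by omega) (by omega) (by omega)]
      by_cases han : a = -n
      · subst han
        rw [Jo_leaf n hn]
        rw [Y_le 0 (by omega), Y_le 0 (by omega), gz (-n + b) (by omega),
          gz (b - 1 + -n) (by omega), show -(n : ℤ) + 1 + b = b + 1 + -n by ring]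
        push_cast
        ring
      · rw [Jo_gen n _ (by omega) (by omega) (by omega) han]
        rw [Y_le 0 (by omega), Y_le 0 (by omega), show a + 1 + b = b + 1 + a by ring,
          show a - 1 + b = b - 1 + a by ring]
        push_cast
        ring
  · rw [Y_pos' 0 (by omega : 1 ≤ a) (by omega), Y_pos' 0 (by omega : 1 ≤ a) (by omega)]
    rw [kI_zero (by omega) (by omega) (by omega) (by omega)]
    by_cases ha1 : a = 1
    · subst ha1
      rw [Jo_1]
      rw [Y_pos 0 (by omega) (by omega), Y_le 0 (by omega), Y_pos 0 (by omega) (by omega)]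
      unfold G
      rw [show (0 : ℤ) + b = b by ring, show b + 1 - 1 = b by ring,
        show b - 1 - 1 = b - 2 by ring]
      push_cast
      ring
    · rw [Jo_gen n _ (by omega) (by omega) (by omega) (by omega)]
      rw [Y_pos 0 (by omega) (by omega), Y_pos 0 (by omega) (by omega),
        show b - (a + 1) = b - 1 - a by ring, show b - (a - 1) = b + 1 - a by ring]
      push_cast
      ring

theorem pos_o (n : ℕ) (hn : 1 ≤ n) {a b : ℤ} (ha : -(n : ℤ) ≤ a) (ha' : a ≤ n + 2)
    (hb : -(n : ℤ) ≤ b) (hb' : b ≤ n + 2) :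
    Jo n (fun t => Y 0 t b) a - Jo n (fun t => Y 0 t a) b = kI n a b := by
  rcases le_total a b with h | h
  · exact pos_o_le n hn ha h hb'
  · have := pos_o_le n hn hb h ha'
    rw [kI_swap]
    push_cast
    linarith

end Pool.Agent.U955.TP
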