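import Pool.Agent.U955.TP.Even
import Pool.Agent.U955.TP.OddCore

set_option autoImplicit false

/-!
The matrices on `T_{2n+5,n}`.
-/

open Finset

namespace Pool.Agent.U955.TP

/-- loops on the cycle -/
def Lo (n i : ℕ) : ℝ := (LI n i : ℝ)

theorem Lo_one {n i : ℕ} (h : i = 1 ∨ i = n + 2 ∨ i = n + 3 ∨ i = 2 * n + 4) : Lo n i = 1 := by
  unfold Lo LI
  rw [if_pos h]
  norm_num

theorem Lo_zero {n i : ℕ} (h : ¬ (i = 1 ∨ i = n + 2 ∨ i = n + 3 ∨ i = 2 * n + 4)) :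
    Lo n i = 0 := by
  unfold Lo LI
  rw [if_neg h]
  norm_num

theorem foldo_inl (n : ℕ) (hn : 1 ≤ n) (i : Fin (2 * n + 5)) (F : ℤ → ℝ) :
    (∑ z, A (2 * n + 5) n (Lo n) (Lt n) (.inl i) z *
      (Sum.elim (fun j : Fin (2 * n + 5) => F (roI n j.1)) (fun j : Fin n => F (-(j.1 : ℤ) - 1)) z)) =
      Jo n F (roI n i.1) := by
  rw [op_inl (2 * n + 5) n (Lo n) (Lt n) hn i (fun j => F (roI n j)) (fun j => F (-(j : ℤ) - 1))]
  have hi := i.2
  generalize i.1 = k at hi ⊢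
  by_cases h0 : k = 0
  · subst h0
    rw [if_pos (by omega), if_neg (by omega), if_pos rfl, if_neg (by omega), if_pos rfl,
      ro_low (by omega : 0 + 1 ≤ n + 2), ro_high (by omega : n + 3 ≤ 2 * n + 5 - 1),
      ro_low (by omega : 0 ≤ n + 2), Lo_zero (by omega),
      show (2 * (n : ℤ) + 5 - ((2 * n + 5 - 1 : ℕ) : ℤ)) = 1 by omega,
      show ((0 + 1 : ℕ) : ℤ) = 1 by norm_num, show ((0 : ℕ) : ℤ) = 0 by norm_num, Jo_0,
      show (-0 - 1 : ℤ) = -1 by norm_num]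
    ring
  rw [if_neg h0, if_neg h0, if_pos (by omega : 1 ≤ k)]
  by_cases h1 : k = 1
  · subst h1
    rw [if_pos (by omega), if_neg (by omega), ro_low (by omega : 1 + 1 ≤ n + 2),
      ro_low (by omega : 1 - 1 ≤ n + 2), ro_low (by omega : 1 ≤ n + 2), Lo_one (by omega),
      show ((1 + 1 : ℕ) : ℤ) = 2 by norm_num,
      show ((1 - 1 : ℕ) : ℤ) = 0 by norm_num, show ((1 : ℕ) : ℤ) = 1 by norm_num, Jo_1]
    ring
  by_cases h2 : k = 2 * n + 4
  · subst h2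
    rw [if_neg (by omega), if_pos (by omega), ro_high (by omega : n + 3 ≤ 2 * n + 4 - 1),
      ro_high (by omega : n + 3 ≤ 2 * n + 4), ro_low (by omega : 0 ≤ n + 2), Lo_one (by omega),
      show (2 * (n : ℤ) + 5 - ((2 * n + 4 - 1 : ℕ) : ℤ)) = 2 by omega,
      show (2 * (n : ℤ) + 5 - ((2 * n + 4 : ℕ) : ℤ)) = 1 by omega,
      show ((0 : ℕ) : ℤ) = 0 by norm_num, Jo_1]
    ring
  rw [if_pos (by omega), if_neg (by omega)]
  by_cases h3 : k = n + 2
  · subst h3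
    rw [ro_high (by omega : n + 3 ≤ n + 2 + 1), ro_low (by omega : n + 2 - 1 ≤ n + 2),
      ro_low (by omega : n + 2 ≤ n + 2), Lo_one (by omega), show ((n + 2 : ℕ) : ℤ) = n + 2 by omega,
      Jo_K, show (2 * (n : ℤ) + 5 - ((n + 2 + 1 : ℕ) : ℤ)) = n + 2 by omega,
      show ((n + 2 - 1 : ℕ) : ℤ) = n + 1 by omega]
    ring
  by_cases h4 : k = n + 3
  · subst h4
    rw [ro_high (by omega : n + 3 ≤ n + 3 + 1), ro_low (by omega : n + 3 - 1 ≤ n + 2),
      ro_high (by omega : n + 3 ≤ n + 3), Lo_one (by omega),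
      show (2 * (n : ℤ) + 5 - ((n + 3 : ℕ) : ℤ)) = n + 2 by omega,
      Jo_K, show (2 * (n : ℤ) + 5 - ((n + 3 + 1 : ℕ) : ℤ)) = n + 1 by omega,
      show ((n + 3 - 1 : ℕ) : ℤ) = n + 2 by omega]
    ring
  rw [Lo_zero (by omega)]
  rcases Nat.lt_or_ge k (n + 2) with h | h
  · rw [ro_low (by omega : k + 1 ≤ n + 2), ro_low (by omega : k - 1 ≤ n + 2),
      ro_low (by omega : k ≤ n + 2), Jo_gen n F (by omega) (by omega) (by omega)
      (by omega), show ((k + 1 : ℕ) : ℤ) = k + 1 by omega, show ((k - 1 : ℕ) : ℤ) = k - 1 by omega]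
    ring
  · rw [ro_high (by omega : n + 3 ≤ k + 1), ro_high (by omega : n + 3 ≤ k - 1),
      ro_high (by omega : n + 3 ≤ k), Jo_gen n F (by omega) (by omega) (by omega)
      (by omega), show (2 * (n : ℤ) + 5 - ((k + 1 : ℕ) : ℤ)) = 2 * n + 5 - k - 1 by omega,
      show (2 * (n : ℤ) + 5 - ((k - 1 : ℕ) : ℤ)) = 2 * n + 5 - k + 1 by omega]
    ring

theorem foldo_inr (n : ℕ) (hn : 1 ≤ n) (i : Fin n) (F : ℤ → ℝ) :
    (∑ z, A (2 * n + 5) n (Lo n) (Lt n) (.inr i) z *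
      (Sum.elim (fun j : Fin (2 * n + 5) => F (roI n j.1)) (fun j : Fin n => F (-(j.1 : ℤ) - 1)) z)) =
      Jo n F (-(i.1 : ℤ) - 1) := by
  rw [op_inr (2 * n + 5) n (Lo n) (Lt n) (by omega) i (fun j => F (roI n j))
    (fun j => F (-(j : ℤ) - 1))]
  have hi := i.2
  generalize i.1 = k at hi ⊢
  have e0 : (if 1 ≤ k then F (-((k - 1 : ℕ) : ℤ) - 1) else 0) + (if k = 0 then F (roI n 0) else 0) =
      F (-(k : ℤ)) := by
    by_cases h : k = 0
    · subst h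
      rw [if_neg (by omega), if_pos rfl, ro_low (by omega)]
      simp
    · rw [if_pos (by omega), if_neg h, show -((k - 1 : ℕ) : ℤ) - 1 = -(k : ℤ) by omega, add_zero]
  have e1 : (if k + 1 < n then F (-((k + 1 : ℕ) : ℤ) - 1) else 0) + Lt n k * F (-(k : ℤ) - 1) +
      F (-(k : ℤ)) = Jo n F (-(k : ℤ) - 1) := by
    unfold Lt
    by_cases h : k + 1 = n
    · rw [if_neg (by omega), if_pos h, show (-(k : ℤ) - 1) = -(n : ℤ) by omega, Jo_leaf n hn,
        show (-(n : ℤ) + 1) = -(k : ℤ) by omega]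
      ring
    · rw [if_pos (by omega), if_neg h, Jo_gen n F (by omega) (by omega) (by omega) (by omega),
        show -((k + 1 : ℕ) : ℤ) - 1 = -(k : ℤ) - 1 - 1 by omega,
        show -(k : ℤ) - 1 + 1 = -(k : ℤ) by omega]
      ring
  linarith

/-- position of a vertex -/
def φo (n : ℕ) : Fin (2 * n + 5) ⊕ Fin n → ℤ
  | .inl i => roI n i.1
  | .inr i => -(i.1 : ℤ) - 1

theorem ro_nonneg (n : ℕ) (i : Fin (2 * n + 5)) : 0 ≤ roI n i.1 ∧ roI n i.1 ≤ n + 2 := by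
  have := i.2
  unfold roI
  split_ifs <;> omega

theorem φo_mem (n : ℕ) (x : Fin (2 * n + 5) ⊕ Fin n) : -(n : ℤ) ≤ φo n x ∧ φo n x ≤ n + 2 := by
  rcases x with i | i
  · have := ro_nonneg n i
    simp only [φo]
    omega
  · have := i.2
    simp only [φo]
    omega

theorem foldo (n : ℕ) (hn : 1 ≤ n) (x : Fin (2 * n + 5) ⊕ Fin n) (F : ℤ → ℝ) :
    (∑ z, A (2 * n + 5) n (Lo n) (Lt n) x z * F (φo n z)) = Jo n F (φo n x) := by
  have e : ∀ z, F (φo n z) = Sum.elim (fun j : Fin (2 * n + 5) => F (roI n j.1))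
      (fun j : Fin n => F (-(j.1 : ℤ) - 1)) z := by
    rintro (j | j) <;> rfl
  simp only [e]
  rcases x with i | i
  · exact foldo_inl n hn i F
  · exact foldo_inr n hn i F

/-- the reflected part as a matrix -/
def Zo (n : ℕ) : Fin (2 * n + 5) ⊕ Fin n → Fin (2 * n + 5) ⊕ Fin n → ℝ
  | .inl i, .inl j => (ZI n i.1 j.1 : ℝ)
  | _, _ => 0

/-- the matrix which commutes -/
def Xo (n : ℕ) : Matrix (Fin (2 * n + 5) ⊕ Fin n) (Fin (2 * n + 5) ⊕ Fin n) ℝ :=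
  fun x y => Y 0 (φo n x) (φo n y) + Zo n x y

theorem Zo_symm (n : ℕ) (x y : Fin (2 * n + 5) ⊕ Fin n) : Zo n x y = Zo n y x := by
  rcases x with i | i <;> rcases y with j | j
  · simp only [Zo]
    rw [ZI_comm]
  · rfl
  · rfl
  · rfl

theorem Xo_symm (n : ℕ) (x y : Fin (2 * n + 5) ⊕ Fin n) : Xo n x y = Xo n y x := by
  unfold Xo
  rw [Y_comm, Zo_symm]

theorem sum_Zo_inr (n : ℕ) (x : Fin (2 * n + 5) ⊕ Fin n) (j : Fin n) :
    (∑ z, A (2 * n + 5) n (Lo n) (Lt n) x z * Zo n z (.inr j)) = 0 := by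
  refine Finset.sum_eq_zero fun z _ => ?_
  rcases z with i | i <;> simp [Zo]

theorem Zo_elim (n : ℕ) (j : Fin (2 * n + 5)) (z : Fin (2 * n + 5) ⊕ Fin n) :
    Zo n z (.inl j) = Sum.elim (fun i : Fin (2 * n + 5) => (fun t : ℕ => (ZI n t j.1 : ℝ)) i.1)
      (fun i : Fin n => (fun _ : ℕ => (0 : ℝ)) i.1) z := by
  rcases z with i | i <;> rfl

theorem sum_Zo_inr_inl (n : ℕ) (i : Fin n) (j : Fin (2 * n + 5)) :
    (∑ z, A (2 * n + 5) n (Lo n) (Lt n) (.inr i) z * Zo n z (.inl j)) = 0 := by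
  simp only [Zo_elim]
  rw [op_inr (2 * n + 5) n (Lo n) (Lt n) (by omega) i (fun t => (ZI n t j.1 : ℝ)) (fun _ => 0)]
  have : ZI n 0 j.1 = 0 := ZI_zero (by omega)
  simp [this]

theorem sum_Zo_inl (n : ℕ) (hn : 1 ≤ n) (i j : Fin (2 * n + 5)) :
    (∑ z, A (2 * n + 5) n (Lo n) (Lt n) (.inl i) z * Zo n z (.inl j)) = (SI n i.1 j.1 : ℝ) := by
  simp only [Zo_elim]
  rw [op_inl (2 * n + 5) n (Lo n) (Lt n) hn i (fun t => (ZI n t j.1 : ℝ)) (fun _ => 0)]
  unfold SI Lo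
  push_cast
  simp

theorem defecto (n : ℕ) (hn : 1 ≤ n) (x y : Fin (2 * n + 5) ⊕ Fin n) :
    (∑ z, A (2 * n + 5) n (Lo n) (Lt n) x z * Zo n z y) -
      (∑ z, A (2 * n + 5) n (Lo n) (Lt n) y z * Zo n z x) = - (kI n (φo n x) (φo n y) : ℝ) := by
  rcases x with i | i <;> rcases y with j | j
  · rw [sum_Zo_inl n hn, sum_Zo_inl n hn]
    have := kI_all n i.1 j.1 hn i.2 j.2
    simp only [φo]
    exact_mod_cast this
  · rw [sum_Zo_inr, sum_Zo_inr_inl]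
    have hr := ro_nonneg n i
    have hj := j.2
    simp only [φo]
    rw [kI_zero (by omega) (by omega) (by omega) (by omega)]
    norm_num
  · rw [sum_Zo_inr, sum_Zo_inr_inl]
    have hr := ro_nonneg n j
    have hi := i.2
    simp only [φo]
    rw [kI_zero (by omega) (by omega) (by omega) (by omega)]
    norm_num
  · rw [sum_Zo_inr, sum_Zo_inr]
    have hi := i.2
    have hj := j.2
    simp only [φo]
    rw [kI_zero (by omega) (by omega) (by omega) (by omega)]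
    norm_num

theorem commute_o (n : ℕ) (hn : 1 ≤ n) :
    A (2 * n + 5) n (Lo n) (Lt n) * Xo n = Xo n * A (2 * n + 5) n (Lo n) (Lt n) := by
  ext x y
  rw [Matrix.mul_apply, Matrix.mul_apply]
  have e1 : (∑ z, A (2 * n + 5) n (Lo n) (Lt n) x z * Xo n z y) =
      Jo n (fun t => Y 0 t (φo n y)) (φo n x) +
        ∑ z, A (2 * n + 5) n (Lo n) (Lt n) x z * Zo n z y := by
    rw [← foldo n hn x (fun t => Y 0 t (φo n y)), ← Finset.sum_add_distrib]
    refine Finset.sum_congr rfl fun z _ => ?_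
    unfold Xo
    ring
  have e2 : (∑ z, Xo n x z * A (2 * n + 5) n (Lo n) (Lt n) z y) =
      Jo n (fun t => Y 0 t (φo n x)) (φo n y) +
        ∑ z, A (2 * n + 5) n (Lo n) (Lt n) y z * Zo n z x := by
    rw [← foldo n hn y (fun t => Y 0 t (φo n x)), ← Finset.sum_add_distrib]
    refine Finset.sum_congr rfl fun z _ => ?_
    rw [Xo_symm n x z, A_symm _ _ _ _ z y]
    unfold Xo
    ring
  have h1 := pos_o n hn (φo_mem n x).1 (φo_mem n x).2 (φo_mem n y).1 (φo_mem n y).2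
  have h2 := defecto n hn x y
  rw [e1, e2]
  linarith

theorem Xo_cc (n : ℕ) (i j : Fin (2 * n + 5))
    (h : i = j ∨ i.1 + 1 = j.1 ∨ j.1 + 1 = i.1 ∨ (i.1 = 0 ∧ j.1 + 1 = 2 * n + 5) ∨
      (j.1 = 0 ∧ i.1 + 1 = 2 * n + 5)) : Xo n (.inl i) (.inl j) = 0 := by
  have hi := i.2
  have hj := j.2
  rw [Fin.ext_iff] at h
  have z : ZI n i.1 j.1 = 0 := ZI_zero (by omega)
  simp only [Xo, Zo, φo, z]
  rw [Y_small 0, Int.cast_zero, add_zero]
  · unfold roI
    split_ifs <;> omega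
  · unfold roI
    split_ifs <;> omega

end Pool.Agent.U955.TP
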