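import Pool.Agent.Results.MP_34deb4_co.LongTails
import Pool.Agent.U955.TP.Odd

/-!
# MP_34deb4_co, Q2: the first tadpole with a given tail which is not an SSP graph

For every `n ≥ 1` the tadpoles `T_{m,n}` with `3 ≤ m ≤ 2 n + 3` are SSP graphs (this is the starting
result `LongTails`) and `T_{2n+4,n}` and `T_{2n+5,n}` are not: already the adjacency matrix plus a
suitable diagonal matrix with entries `0, 1, 2` does not have the SSP. The definitions `InS`,
`HasSSP`, `IsSSPGraph`, `tadpole` are those of `LongTails`.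

The matrices. Let `c_0, c_{±1}, …` be the cycle, `c_0` the vertex of degree three, `p_1, …, p_n` the
path. For `m = 2 n + 4` the diagonal is `1` at `p_n`, `c_0`, `c_{±1}`, it is `2` at the antipode of
`c_0` and `0` elsewhere; the commuting matrix has entries from the sequence `0, 1, 2, 5, 12, …`.
For `m = 2 n + 5` the diagonal is `1` at `p_n`, `c_{±1}`, `c_{±(n+2)}` and `0` elsewhere; the
commuting matrix has entries `0` and powers of two.
-/

set_option autoImplicit false

open Finset

namespace Pool.Agent.U955.TP.SharpThreshold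

open Pool.Agent.Results.MP_34deb4_co.LongTails Pool.Agent.U955.TP

theorem inS_A (m n : ℕ) (hm : 3 ≤ m) (L L' : ℕ → ℝ) : InS (tadpole m n) (A m n L L') := by
  refine ⟨Matrix.IsSymm.ext fun x y => A_symm m n L L' y x, ?_⟩
  rintro (i | i) (j | j) hne
  · rw [adj_cc hm]
    exact acc_ne m hm L i.2 j.2 (fun h => hne (by rw [Fin.ext h]))
  · rw [SimpleGraph.adj_comm, adj_pc]
    simp only [A]
    split_ifs with h
    · simp [h]
    · simp only [ne_eq, not_true_eq_false, false_iff]
      omega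
  · rw [adj_pc]
    simp only [A]
    split_ifs with h
    · simp [h]
    · simp only [ne_eq, not_true_eq_false, false_iff]
      omega
  · rw [adj_pp]
    exact app_ne L' (fun h => hne (by rw [Fin.ext h]))

theorem one_of_adj (m n : ℕ) (hm : 3 ≤ m) (L L' : ℕ → ℝ) (x y : Fin m ⊕ Fin n)
    (h : (tadpole m n).Adj x y) : A m n L L' x y = 1 := by
  rcases x with i | i <;> rcases y with j | j
  · have hne := h.ne
    rw [adj_cc hm] at h
    have hi := i.2
    have hj := j.2
    simp only [A, acc]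
    have hij : ¬ i.1 = j.1 := fun e => hne (by rw [Fin.ext e])
    rw [if_neg hij]
    by_cases h1 : j.1 = i.1 + 1
    · rw [if_pos h1, if_neg (by omega), if_neg (by omega), if_neg (by omega)]
      norm_num
    by_cases h2 : j.1 + 1 = i.1
    · rw [if_neg h1, if_pos h2, if_neg (by omega), if_neg (by omega)]
      norm_num
    by_cases h3 : i.1 = 0 ∧ j.1 + 1 = m
    · rw [if_neg h1, if_neg h2, if_pos h3, if_neg (by omega)]
      norm_num
    · rw [if_neg h1, if_neg h2, if_neg h3, if_pos (by omega)]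
      norm_num
  · rw [SimpleGraph.adj_comm, adj_pc] at h
    simp only [A]
    rw [if_pos ⟨h.2, h.1⟩]
  · rw [adj_pc] at h
    simp only [A]
    rw [if_pos ⟨h.2, h.1⟩]
  · have hne := h.ne
    rw [adj_pp] at h
    simp only [A, app]
    have hij : ¬ i.1 = j.1 := fun e => hne (by rw [Fin.ext e])
    rw [if_neg hij]
    by_cases h1 : j.1 = i.1 + 1
    · rw [if_pos h1, if_neg (by omega)]
      norm_num
    · rw [if_neg h1, if_pos (by omega)]
      norm_num

/-- a matrix `X` which vanishes on the diagonal and on the edges and commutes -/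
theorem not_ssp {V : Type} [Fintype V] (G : SimpleGraph V) (B X : Matrix V V ℝ) (hB : InS G B)
    (hX : X.IsSymm) (h0 : ∀ x, X x x = 0) (h1 : ∀ x y, G.Adj x y → X x y = 0)
    (hc : B * X = X * B) (x y : V) (hne : X x y ≠ 0) : ¬ HasSSP B := by
  intro h
  have := h X hX (fun i j => by
    by_cases hij : i = j
    · rw [hij, h0, mul_zero]
    · by_cases ha : G.Adj i j
      · rw [h1 i j ha, mul_zero]
      · have : B i j = 0 := by
          by_contra hne'
          exact ha ((hB.2 i j hij).1 hne')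
        rw [this, zero_mul]) h0 hc
  exact hne (by rw [this]; rfl)

theorem even_case (n : ℕ) (hn : 1 ≤ n) : ¬ HasSSP (A (2 * n + 4) n (Le n) (Lt n)) := by
  have hY := fun (s : ℤ) (h : s ≤ 1) => G_zero 1 h
  have pos : ∀ i : Fin n, ∀ j : Fin n, Xe n (.inr i) (.inr j) = 0 := by
    intro i j
    simp only [Xe]
    rw [Y_le 1 (by omega), hY _ (by omega)]
  have cp : ∀ (i : Fin (2 * n + 4)) (j : Fin n), i.1 = 0 → j.1 = 0 →
      Xe n (.inl i) (.inr j) = 0 := by
    intro i j hi hj
    simp only [Xe]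
    rw [Y_ge 1 (by omega), hi, re_low (by omega), hY _ (by omega)]
  refine not_ssp (tadpole (2 * n + 4) n) _ (Xe n) (inS_A _ _ (by omega) _ _)
    (Matrix.IsSymm.ext fun x y => Xe_symm n y x) ?_ ?_ (commute_e n hn)
    (.inl ⟨n + 2, by omega⟩) (.inr ⟨n - 1, by omega⟩) ?_
  · rintro (i | i)
    · exact Xe_cc n i i (Or.inl rfl)
    · exact pos i i
  · rintro (i | i) (j | j) h
    · rw [adj_cc (by omega)] at h
      exact Xe_cc n i j (Or.inr h)
    · rw [SimpleGraph.adj_comm, adj_pc] at h
      exact cp i j h.2 h.1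
    · rw [adj_pc] at h
      rw [Xe_symm]
      exact cp j i h.2 h.1
    · exact pos i j
  · simp only [Xe]
    rw [Y_ge 1 (by omega), re_low (by omega)]
    rw [show (((n + 2 : ℕ) : ℤ) + (-((n - 1 : ℕ) : ℤ) - 1)) = 2 by omega]
    unfold G
    rw [H_two, H_zero 1 (by norm_num)]
    norm_num

theorem odd_case (n : ℕ) (hn : 1 ≤ n) : ¬ HasSSP (A (2 * n + 5) n (Lo n) (Lt n)) := by
  have hY := fun (s : ℤ) (h : s ≤ 1) => G_zero 0 h
  have pos : ∀ i : Fin n, ∀ j : Fin n, Xo n (.inr i) (.inr j) = 0 := by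
    intro i j
    simp only [Xo, φo, Zo]
    rw [Y_le 0 (by omega), hY _ (by omega), add_zero]
  have cp : ∀ (i : Fin (2 * n + 5)) (j : Fin n), i.1 = 0 → j.1 = 0 →
      Xo n (.inl i) (.inr j) = 0 := by
    intro i j hi hj
    simp only [Xo, φo, Zo]
    rw [Y_ge 0 (by omega), hi, ro_low (by omega), hY _ (by omega), add_zero]
  refine not_ssp (tadpole (2 * n + 5) n) _ (Xo n) (inS_A _ _ (by omega) _ _)
    (Matrix.IsSymm.ext fun x y => Xo_symm n y x) ?_ ?_ (commute_o n hn)
    (.inl ⟨n + 2, by omega⟩) (.inr ⟨n - 1, by omega⟩) ?_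
  · rintro (i | i)
    · exact Xo_cc n i i (Or.inl rfl)
    · exact pos i i
  · rintro (i | i) (j | j) h
    · rw [adj_cc (by omega)] at h
      exact Xo_cc n i j (Or.inr h)
    · rw [SimpleGraph.adj_comm, adj_pc] at h
      exact cp i j h.2 h.1
    · rw [adj_pc] at h
      rw [Xo_symm]
      exact cp j i h.2 h.1
    · exact pos i j
  · simp only [Xo, φo, Zo]
    rw [Y_ge 0 (by omega), ro_low (by omega)]
    rw [show (((n + 2 : ℕ) : ℤ) + (-((n - 1 : ℕ) : ℤ) - 1)) = 2 by omega]
    unfold G
    rw [H_two, H_zero 0 (by norm_num)]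
    norm_num

theorem diag_e (n : ℕ) (x : Fin (2 * n + 4) ⊕ Fin n) :
    A (2 * n + 4) n (Le n) (Lt n) x x = 0 ∨ A (2 * n + 4) n (Le n) (Lt n) x x = 1 ∨
      A (2 * n + 4) n (Le n) (Lt n) x x = 2 := by
  rcases x with i | i
  · have hi := i.2
    simp only [A, acc]
    rw [if_neg (by omega), if_neg (by omega), if_neg (by omega), if_pos trivial]
    unfold Le
    split_ifs <;> norm_num
  · have hi := i.2
    simp only [A, app]
    rw [if_neg (by omega), if_neg (by omega), if_pos trivial]
    unfold Lt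
    split_ifs <;> norm_num

theorem diag_o (n : ℕ) (x : Fin (2 * n + 5) ⊕ Fin n) :
    A (2 * n + 5) n (Lo n) (Lt n) x x = 0 ∨ A (2 * n + 5) n (Lo n) (Lt n) x x = 1 ∨
      A (2 * n + 5) n (Lo n) (Lt n) x x = 2 := by
  rcases x with i | i
  · have hi := i.2
    simp only [A, acc]
    rw [if_neg (by omega), if_neg (by omega), if_neg (by omega), if_pos trivial]
    unfold Lo LI
    split_ifs <;> norm_num
  · have hi := i.2
    simp only [A, app]
    rw [if_neg (by omega), if_neg (by omega), if_pos trivial]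
    unfold Lt
    split_ifs <;> norm_num

/-- **The threshold.** Let `n ≥ 1`. The tadpoles `T_{m,n}` with `3 ≤ m ≤ 2 n + 3` are SSP graphs.
For `m = 2 n + 4` and `m = 2 n + 5` there is a matrix of `T_{m,n}` without the SSP, all of whose
entries at the edges are `1` and whose diagonal entries are `0`, `1` or `2`; in particular `T_{m,n}`
is not an SSP graph. -/
theorem result : ∀ n : ℕ, 1 ≤ n →
    (∀ m : ℕ, 3 ≤ m → m ≤ 2 * n + 3 → IsSSPGraph (tadpole m n)) ∧
    (∀ m : ℕ, m = 2 * n + 4 ∨ m = 2 * n + 5 →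
      ¬ IsSSPGraph (tadpole m n) ∧
      ∃ B : Matrix (Fin m ⊕ Fin n) (Fin m ⊕ Fin n) ℝ, InS (tadpole m n) B ∧
        (∀ x y, (tadpole m n).Adj x y → B x y = 1) ∧
        (∀ x, B x x = 0 ∨ B x x = 1 ∨ B x x = 2) ∧ ¬ HasSSP B) := by
  intro n hn
  refine ⟨fun m hm hmn => Pool.Agent.Results.MP_34deb4_co.LongTails.result m n hm hn hmn, ?_⟩
  rintro m (rfl | rfl)
  · exact ⟨fun h => even_case n hn (h _ (inS_A _ _ (by omega) _ _)), _,
      inS_A _ _ (by omega) _ _, one_of_adj _ _ (by omega) _ _, diag_e n, even_case n hn⟩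
  · exact ⟨fun h => odd_case n hn (h _ (inS_A _ _ (by omega) _ _)), _,
      inS_A _ _ (by omega) _ _, one_of_adj _ _ (by omega) _ _, diag_o n, odd_case n hn⟩

end Pool.Agent.U955.TP.SharpThreshold
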